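import Mathlib

set_option linter.all false
set_option maxHeartbeats 400000

open Polynomial

namespace Pool.Agent.Results.MP_9b3446_nt.PowerExponents

/-- The height of an integer polynomial: the maximum of the absolute values of its
coefficients. -/
def ht (P : ℤ[X]) : ℕ := P.support.sup fun i => (P.coeff i).natAbs

/-- Mahler's exponent `w_n(ξ)`: the supremum (in `[0, ∞]`) of the real numbers `w ≥ 0` such that
`0 < |P(ξ)| ≤ H(P)^(-w)` holds for infinitely many integer polynomials `P` of degree at most `n`. -/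
noncomputable def wExp (n : ℕ) (ξ : ℝ) : ENNReal :=
  ⨆ (w : NNReal) (_ : {P : ℤ[X] | P.natDegree ≤ n ∧ 0 < |aeval ξ P| ∧
    |aeval ξ P| ≤ (ht P : ℝ) ^ (-(w : ℝ))}.Infinite), (w : ENNReal)

/-- Koksma's exponent `w_n^*(ξ)`: the supremum (in `[0, ∞]`) of the real numbers `w ≥ 0` such that
`0 < |ξ - α| ≤ H(α)^(-w-1)` holds for infinitely many algebraic numbers `α ∈ ℂ` of degree at most
`n`. The degree and the height of `α` are those of its minimal polynomial over the integers, that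
is, of the irreducible `P ∈ ℤ[X]` with `P(α) = 0` (which exists exactly when `α` is algebraic, is
unique up to sign, primitive, and has the degree of `α` over `ℚ`; see the lemmas
`minimal_polynomial_exists`, `minimal_polynomial_unique`, `minimal_polynomial_spec`). -/
noncomputable def wStar (n : ℕ) (ξ : ℝ) : ENNReal :=
  ⨆ (w : NNReal) (_ : {α : ℂ | ∃ P : ℤ[X], Irreducible P ∧ aeval α P = 0 ∧ P.natDegree ≤ n ∧
    0 < ‖(ξ : ℂ) - α‖ ∧ ‖(ξ : ℂ) - α‖ ≤ (ht P : ℝ) ^ (-(w : ℝ) - 1)}.Infinite), (w : ENNReal)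

lemma natAbs_coeff_le_ht (P : ℤ[X]) (i : ℕ) : (P.coeff i).natAbs ≤ ht P := by
  by_cases h : i ∈ P.support
  · exact Finset.le_sup (f := fun i => (P.coeff i).natAbs) h
  · rw [mem_support_iff, not_not] at h
    simp [h]

lemma abs_coeff_le_ht (P : ℤ[X]) (i : ℕ) : |(P.coeff i : ℝ)| ≤ ht P := by
  have := natAbs_coeff_le_ht P i
  rw [← Int.cast_abs, Int.abs_eq_natAbs]
  exact_mod_cast this

lemma ht_le {P : ℤ[X]} {N : ℕ} (h : ∀ i, (P.coeff i).natAbs ≤ N) : ht P ≤ N :=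
  Finset.sup_le fun i _ => h i

lemma one_le_ht {P : ℤ[X]} (hP : P ≠ 0) : 1 ≤ ht P := by
  have h1 : P.leadingCoeff ≠ 0 := leadingCoeff_ne_zero.mpr hP
  calc 1 ≤ P.leadingCoeff.natAbs := Int.natAbs_pos.mpr h1
    _ ≤ ht P := natAbs_coeff_le_ht P P.natDegree

lemma finite_ht_le (n N : ℕ) : {P : ℤ[X] | P.natDegree ≤ n ∧ ht P ≤ N}.Finite := by
  have hfin : (Set.pi Set.univ (fun _ : Fin (n+1) => Set.Icc (-(N:ℤ)) N)).Finite :=
    Set.Finite.pi fun _ => Set.finite_Icc _ _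
  refine Set.Finite.of_finite_image (f := fun P : ℤ[X] => fun i : Fin (n+1) => P.coeff i)
    (hfin.subset ?_) ?_
  · rintro _ ⟨P, ⟨_, h2⟩, rfl⟩ i _
    have := (natAbs_coeff_le_ht P i).trans h2
    simp only [Set.mem_Icc]
    constructor <;> omega
  · rintro P ⟨h1, _⟩ Q ⟨h2, _⟩ h
    ext i
    by_cases hi : i < n + 1
    · exact congrFun h ⟨i, hi⟩
    · rw [coeff_eq_zero_of_natDegree_lt (by omega), coeff_eq_zero_of_natDegree_lt (by omega)]

lemma abs_pow_sub_pow_le {x y : ℂ} {R : ℝ} (hx : ‖x‖ ≤ R) (hy : ‖y‖ ≤ R) (i : ℕ) :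
    ‖x ^ i - y ^ i‖ ≤ i * R ^ (i - 1) * ‖x - y‖ := by
  have hR : 0 ≤ R := (norm_nonneg _).trans hx
  rw [← Commute.geom_sum₂_mul (Commute.all x y), norm_mul]
  refine mul_le_mul_of_nonneg_right ?_ (norm_nonneg _)
  calc ‖∑ j ∈ Finset.range i, x ^ j * y ^ (i - 1 - j)‖
      ≤ ∑ j ∈ Finset.range i, ‖x ^ j * y ^ (i - 1 - j)‖ := norm_sum_le _ _
    _ ≤ ∑ j ∈ Finset.range i, R ^ (i - 1) := by
        refine Finset.sum_le_sum fun j hj => ?_
        rw [norm_mul, norm_pow, norm_pow]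
        have hj' : j < i := Finset.mem_range.mp hj
        calc ‖x‖ ^ j * ‖y‖ ^ (i - 1 - j) ≤ R ^ j * R ^ (i - 1 - j) := by
              gcongr
          _ = R ^ (i - 1) := by rw [← pow_add]; congr 1; omega
    _ = i * R ^ (i - 1) := by simp

/-- Constant in the Lipschitz bound for polynomials of degree at most `m` on the ball of
radius `B`. -/
noncomputable def lipC (B : ℝ) (m : ℕ) : ℝ := (m + 1) * (m * B ^ m)

lemma lipschitz_bound {B : ℝ} (hB : 1 ≤ B) {m : ℕ} {P : ℤ[X]} (hP : P.natDegree ≤ m) {x y : ℂ}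
    (hx : ‖x‖ ≤ B) (hy : ‖y‖ ≤ B) :
    ‖aeval x P - aeval y P‖ ≤ lipC B m * ht P * ‖x - y‖ := by
  rw [aeval_eq_sum_range' (Nat.lt_succ_of_le hP), aeval_eq_sum_range' (Nat.lt_succ_of_le hP),
    ← Finset.sum_sub_distrib]
  calc ‖∑ i ∈ Finset.range (m + 1), (P.coeff i • x ^ i - P.coeff i • y ^ i)‖
      ≤ ∑ i ∈ Finset.range (m + 1), ‖P.coeff i • x ^ i - P.coeff i • y ^ i‖ := norm_sum_le _ _
    _ ≤ ∑ i ∈ Finset.range (m + 1), ((m : ℝ) * B ^ m) * ht P * ‖x - y‖ := by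
        refine Finset.sum_le_sum fun i hi => ?_
        have hi' : i ≤ m := Nat.lt_succ_iff.mp (Finset.mem_range.mp hi)
        rw [← smul_sub, zsmul_eq_mul, norm_mul]
        have h1 : ‖((P.coeff i : ℤ) : ℂ)‖ ≤ ht P := by
          rw [Complex.norm_intCast]; exact abs_coeff_le_ht P i
        have h2 := abs_pow_sub_pow_le hx hy i
        have h3 : (i : ℝ) * B ^ (i - 1) ≤ m * B ^ m := by
          gcongr
          omega
        calc ‖((P.coeff i : ℤ) : ℂ)‖ * ‖x ^ i - y ^ i‖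
            ≤ ht P * (i * B ^ (i - 1) * ‖x - y‖) := by gcongr
          _ ≤ ht P * (m * B ^ m * ‖x - y‖) := by gcongr
          _ = _ := by ring
    _ = _ := by simp [lipC]; ring

lemma value_bound {B : ℝ} (hB : 1 ≤ B) {m : ℕ} {P : ℤ[X]} (hP : P.natDegree ≤ m) {x : ℂ}
    (hx : ‖x‖ ≤ B) : ‖aeval x P‖ ≤ (m + 1) * B ^ m * ht P := by
  rw [aeval_eq_sum_range' (Nat.lt_succ_of_le hP)]
  calc ‖∑ i ∈ Finset.range (m + 1), P.coeff i • x ^ i‖
      ≤ ∑ i ∈ Finset.range (m + 1), ‖P.coeff i • x ^ i‖ := norm_sum_le _ _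
    _ ≤ ∑ i ∈ Finset.range (m + 1), B ^ m * ht P := by
        refine Finset.sum_le_sum fun i hi => ?_
        have hi' : i ≤ m := Nat.lt_succ_iff.mp (Finset.mem_range.mp hi)
        rw [zsmul_eq_mul, norm_mul, norm_pow]
        have h1 : ‖((P.coeff i : ℤ) : ℂ)‖ ≤ ht P := by
          rw [Complex.norm_intCast]; exact abs_coeff_le_ht P i
        calc ‖((P.coeff i : ℤ) : ℂ)‖ * ‖x‖ ^ i ≤ ht P * B ^ i := by gcongr
          _ ≤ ht P * B ^ m := by gcongr
          _ = _ := by ring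
    _ = _ := by simp; ring

lemma aeval_ofReal (x : ℝ) (P : ℤ[X]) : aeval (x : ℂ) P = ((aeval x P : ℝ) : ℂ) := by
  have := Polynomial.aeval_algebraMap_apply ℂ x P
  simpa using this

lemma rational_lower {m : ℕ} {P : ℤ[X]} (hP : P.natDegree ≤ m) {p : ℤ} {q : ℕ} (hq : 0 < q)
    (h : aeval ((p : ℝ) / q) P ≠ 0) : 1 ≤ (q : ℝ) ^ m * |aeval ((p : ℝ) / q) P| := by
  have h1 := one_le_pow_mul_abs_eval_div (K := ℝ) (f := P) (a := p) (b := (q : ℤ))
    (by exact_mod_cast hq) (by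
      rw [eval_map_algebraMap]; simpa using h)
  rw [eval_map_algebraMap] at h1
  simp only [Int.cast_natCast] at h1
  refine h1.trans ?_
  gcongr
  exact_mod_cast hq

/-- Height bound for the cofactor. -/
lemma cofactor_bound {P R : ℤ[X]} {u : ℕ} {v : ℤ} {d m : ℕ} (hd : 0 < d) {B : ℝ}
    (hB : 0 ≤ B) (hv : |(v : ℝ)| ≤ B * u)
    (hPR : P = (C (u : ℤ) * X ^ d - C v) * R) (hR : R.natDegree ≤ m) :
    (u : ℝ) * ht R ≤ ht P * ∑ s ∈ Finset.range (m + 1), B ^ s := by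
  have hcoeff : ∀ i, P.coeff (i + d) = u * R.coeff i - v * R.coeff (i + d) := by
    intro i
    rw [hPR, sub_mul, coeff_sub, mul_assoc, coeff_C_mul, coeff_C_mul, mul_comm (X ^ d) R,
      coeff_mul_X_pow]
  have hS : ∀ t, 0 ≤ ∑ s ∈ Finset.range t, B ^ s := fun t =>
    Finset.sum_nonneg fun s _ => pow_nonneg hB s
  have key : ∀ t i, R.natDegree < i + t →
      (u : ℝ) * |(R.coeff i : ℝ)| ≤ ht P * ∑ s ∈ Finset.range t, B ^ s := by
    intro t
    induction t with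
    | zero =>
      intro i hi
      rw [coeff_eq_zero_of_natDegree_lt (by omega)]
      simp
    | succ t ih =>
      intro i hi
      have h1 := ih (i + d) (by omega)
      have h2 : (u : ℝ) * R.coeff i = P.coeff (i + d) + v * R.coeff (i + d) := by
        have := hcoeff i
        have h3 : (u : ℤ) * R.coeff i = P.coeff (i + d) + v * R.coeff (i + d) := by
          rw [this]; ring
        exact_mod_cast h3
      have h4 : (u : ℝ) * |(R.coeff i : ℝ)| = |(u : ℝ) * R.coeff i| := by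
        rw [abs_mul, Nat.abs_cast]
      rw [h4, h2]
      calc |(P.coeff (i + d) : ℝ) + v * R.coeff (i + d)|
          ≤ |(P.coeff (i + d) : ℝ)| + |(v : ℝ)| * |(R.coeff (i + d) : ℝ)| := by
            rw [← abs_mul]; exact abs_add_le _ _
        _ ≤ ht P + (B * u) * |(R.coeff (i + d) : ℝ)| := by
            gcongr; exact abs_coeff_le_ht P _
        _ = ht P + B * (u * |(R.coeff (i + d) : ℝ)|) := by ring
        _ ≤ ht P + B * (ht P * ∑ s ∈ Finset.range t, B ^ s) := by gcongr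
        _ = ht P * ∑ s ∈ Finset.range (t + 1), B ^ s := by
            rw [Finset.sum_range_succ', pow_zero]
            simp only [pow_succ, ← Finset.sum_mul]
            ring
  have hall : ∀ i, (u : ℝ) * |(R.coeff i : ℝ)| ≤ ht P * ∑ s ∈ Finset.range (m + 1), B ^ s :=
    fun i => key (m + 1) i (by omega)
  -- pass to the sup
  by_cases hR0 : R = 0
  · subst hR0
    have : ht (0 : ℤ[X]) = 0 := by simp [ht]
    rw [this]
    simp only [Nat.cast_zero, mul_zero]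
    exact mul_nonneg (Nat.cast_nonneg _) (hS _)
  · obtain ⟨i, hi, hmax⟩ := Finset.exists_mem_eq_sup R.support
      (nonempty_support_iff.mpr hR0) (fun i => (R.coeff i).natAbs)
    have h5 : (ht R : ℝ) = |(R.coeff i : ℝ)| := by
      have : ht R = (R.coeff i).natAbs := hmax
      rw [this, Nat.cast_natAbs, Int.cast_abs]
    rw [h5]
    exact hall i

lemma dvd_of_root {Q P : ℤ[X]} (hQ : Irreducible Q) (hd : Q.natDegree ≠ 0) {α : ℂ}
    (h1 : aeval α Q = 0) (h2 : aeval α P = 0) : Q ∣ P := by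
  have hprim : Q.IsPrimitive := hQ.isPrimitive hd
  have hirr : Irreducible (Q.map (Int.castRingHom ℚ)) :=
    (IsPrimitive.Int.irreducible_iff_irreducible_map_cast hprim).mp hQ
  rw [IsPrimitive.Int.dvd_iff_map_cast_dvd_map_cast Q P hprim]
  have e1 : aeval α (Q.map (Int.castRingHom ℚ)) = 0 := by
    have := Polynomial.aeval_map_algebraMap ℚ α Q
    rw [show (algebraMap ℤ ℚ) = Int.castRingHom ℚ from rfl] at this
    rw [this]; exact h1
  have e2 : aeval α (P.map (Int.castRingHom ℚ)) = 0 := by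
    have := Polynomial.aeval_map_algebraMap ℚ α P
    rw [show (algebraMap ℤ ℚ) = Int.castRingHom ℚ from rfl] at this
    rw [this]; exact h2
  have d1 : minpoly ℚ α ∣ Q.map (Int.castRingHom ℚ) := minpoly.dvd ℚ α e1
  have d2 : minpoly ℚ α ∣ P.map (Int.castRingHom ℚ) := minpoly.dvd ℚ α e2
  have hint : IsIntegral ℚ α := by
    rw [← isAlgebraic_iff_isIntegral]
    exact ⟨_, hirr.ne_zero, e1⟩
  have hnu : ¬ IsUnit (minpoly ℚ α) := minpoly.not_isUnit ℚ α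
  exact ((hirr.dvd_iff.mp d1).resolve_left hnu).dvd.trans d2

/-- An irreducible integer polynomial with a complex root is not constant. -/
lemma natDegree_ne_zero_of_root {P : ℤ[X]} (hP : Irreducible P) {α : ℂ} (h : aeval α P = 0) :
    P.natDegree ≠ 0 := by
  intro h0
  rw [eq_C_of_natDegree_eq_zero h0, aeval_C] at h
  have h1 : P.coeff 0 = 0 := by simpa using h
  rw [eq_C_of_natDegree_eq_zero h0, h1, C_0] at hP
  exact hP.ne_zero rfl

/-- Sanity check: the minimal polynomial over the integers is unique up to sign (a unit). -/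
lemma minimal_polynomial_unique {P Q : ℤ[X]} (hP : Irreducible P) (hQ : Irreducible Q) {α : ℂ}
    (h1 : aeval α P = 0) (h2 : aeval α Q = 0) : Associated P Q :=
  associated_of_dvd_dvd (dvd_of_root hP (natDegree_ne_zero_of_root hP h1) h1 h2)
    (dvd_of_root hQ (natDegree_ne_zero_of_root hQ h2) h2 h1)

/-- Sanity check: it is primitive and has the degree of the rational minimal polynomial. -/
lemma minimal_polynomial_spec {P : ℤ[X]} (hP : Irreducible P) {α : ℂ} (h : aeval α P = 0) :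
    P.IsPrimitive ∧ P.natDegree = (minpoly ℚ α).natDegree := by
  have hprim : P.IsPrimitive := hP.isPrimitive (natDegree_ne_zero_of_root hP h)
  refine ⟨hprim, ?_⟩
  have hirr : Irreducible (P.map (Int.castRingHom ℚ)) :=
    (IsPrimitive.Int.irreducible_iff_irreducible_map_cast hprim).mp hP
  have e1 : aeval α (P.map (Int.castRingHom ℚ)) = 0 := by
    have := Polynomial.aeval_map_algebraMap ℚ α P
    rw [show (algebraMap ℤ ℚ) = Int.castRingHom ℚ from rfl] at this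
    rw [this]; exact h
  have h2 := minpoly.eq_of_irreducible hirr e1
  have h3 : (minpoly ℚ α).natDegree = (P.map (Int.castRingHom ℚ)).natDegree := by
    rw [← h2]
    rw [natDegree_mul_C]
    exact inv_ne_zero (leadingCoeff_ne_zero.mpr hirr.ne_zero)
  rw [h3, natDegree_map_eq_of_injective (Int.castRingHom ℚ).injective_int]

/-- Sanity check: every algebraic number has such a polynomial. -/
lemma minimal_polynomial_exists {α : ℂ} (h : IsAlgebraic ℚ α) :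
    ∃ P : ℤ[X], Irreducible P ∧ aeval α P = 0 := by
  have h' : IsAlgebraic ℤ α := (IsFractionRing.isAlgebraic_iff ℤ ℚ ℂ).mpr h
  obtain ⟨P, hP0, hP⟩ := h'
  obtain ⟨f, hf, hfP⟩ := WfDvdMonoid.exists_factors P hP0
  have h1 : aeval α f.prod = 0 := by
    obtain ⟨u, hu⟩ := hfP
    have h2 : aeval α f.prod * aeval α (u : ℤ[X]) = 0 := by rw [← map_mul, hu, hP]
    rcases mul_eq_zero.mp h2 with h3 | h3
    · exact h3
    · exfalso
      have h4 : aeval α ((u : ℤ[X]) * ((u⁻¹ : ℤ[X]ˣ) : ℤ[X])) = 0 := by rw [map_mul, h3, zero_mul]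
      rw [Units.mul_inv, map_one] at h4
      exact one_ne_zero h4
  rw [map_multiset_prod, Multiset.prod_eq_zero_iff, Multiset.mem_map] at h1
  obtain ⟨Q, hQ, hQ0⟩ := h1
  exact ⟨Q, hf Q hQ, hQ0⟩
lemma dvd_of_root_real {Q P : ℤ[X]} (hQ : Irreducible Q) (hd : Q.natDegree ≠ 0) {α : ℝ}
    (h1 : aeval α Q = 0) (h2 : aeval α P = 0) : Q ∣ P :=
  dvd_of_root hQ hd (α := (α : ℂ)) (by rw [aeval_ofReal, h1]; simp) (by rw [aeval_ofReal, h2]; simp)

lemma norm_lower {B : ℝ} (hB : 1 ≤ B) {m k : ℕ} (hk : 0 < k) {P : ℤ[X]} (hP : P.natDegree ≤ m)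
    {a b : ℕ} (hb : 0 < b) {α : ℝ} (hα0 : 0 ≤ α) (hαB : α ≤ B) (hα : (b : ℝ) * α ^ k = a)
    (h : aeval α P ≠ 0) :
    1 ≤ ((b : ℝ) ^ m) ^ k * ((m + 1) * B ^ m * ht P) ^ (k - 1) * |aeval α P| := by
  classical
  have hbC : (b : ℂ) ≠ 0 := by exact_mod_cast hb.ne'
  have hαC : (b : ℂ) * (α : ℂ) ^ k = a := by exact_mod_cast congrArg (fun x : ℝ => (x : ℂ)) hα
  -- the field generated by α
  have hint : IsIntegral ℚ (α : ℂ) := by
    refine ⟨X ^ k - C ((a : ℚ) / b), monic_X_pow_sub_C _ hk.ne', ?_⟩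
    simp only [eval₂_sub, eval₂_X_pow, eval₂_C, map_div₀, map_natCast]
    rw [← hαC]; field_simp; ring
  let K := IntermediateField.adjoin ℚ {(α : ℂ)}
  have : FiniteDimensional ℚ K := IntermediateField.adjoin.finiteDimensional hint
  let g : K := IntermediateField.AdjoinSimple.gen ℚ (α : ℂ)
  have hg : (algebraMap K ℂ) g = (α : ℂ) := IntermediateField.AdjoinSimple.algebraMap_gen ℚ (α : ℂ)
  have hgk : (b : K) * g ^ k = (a : K) := by
    apply (algebraMap K ℂ).injective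
    rw [map_mul, map_pow, hg, map_natCast, map_natCast]
    exact hαC
  have hdeg : Module.finrank ℚ K ≤ k := by
    rw [IntermediateField.adjoin.finrank hint]
    have hdvd : minpoly ℚ (α : ℂ) ∣ X ^ k - C ((a : ℚ) / b) := by
      apply minpoly.dvd
      simp only [map_sub, map_pow, aeval_X, aeval_C, map_div₀, map_natCast]
      rw [← hαC]; field_simp; ring
    have := natDegree_le_of_dvd hdvd (monic_X_pow_sub_C _ hk.ne').ne_zero
    rwa [natDegree_X_pow_sub_C] at this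
  -- the integral element
  let β : K := (b : K) ^ m * aeval g P
  have hβint : IsIntegral ℤ β := by
    have h1 : IsIntegral ℤ ((b : K) * g) := by
      refine ⟨X ^ k - C ((a : ℤ) * (b : ℤ) ^ (k - 1)), monic_X_pow_sub_C _ hk.ne', ?_⟩
      simp only [eval₂_sub, eval₂_X_pow, eval₂_C]
      simp only [algebraMap_int_eq, eq_intCast, Int.cast_mul, Int.cast_natCast, Int.cast_pow]
      rw [mul_pow, ← hgk]
      obtain ⟨k', rfl⟩ : ∃ k', k = k' + 1 := ⟨k - 1, by omega⟩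
      simp only [Nat.add_sub_cancel]
      ring
    have h2 : β = ∑ i ∈ Finset.range (m + 1), ((P.coeff i * (b : ℤ) ^ (m - i) : ℤ) : K) *
        ((b : K) * g) ^ i := by
      show (b : K) ^ m * aeval g P = _
      rw [aeval_eq_sum_range' (Nat.lt_succ_of_le hP), Finset.mul_sum]
      refine Finset.sum_congr rfl fun i hi => ?_
      have hi' : i ≤ m := Nat.lt_succ_iff.mp (Finset.mem_range.mp hi)
      rw [zsmul_eq_mul, mul_pow]
      push_cast
      rw [show (b : K) ^ m = (b : K) ^ (m - i) * (b : K) ^ i by rw [← pow_add]; congr 1; omega]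
      ring
    rw [h2]
    refine IsIntegral.sum _ fun i _ => ?_
    refine IsIntegral.mul ?_ (h1.pow i)
    exact isIntegral_algebraMap (R := ℤ) (A := K) (x := (P.coeff i * (b : ℤ) ^ (m - i) : ℤ))
  have hβne : β ≠ 0 := by
    intro h0
    apply h
    have h1 : algebraMap K ℂ β = 0 := by rw [h0, map_zero]
    have h2 : algebraMap K ℂ β = (b : ℂ) ^ m * aeval (α : ℂ) P := by
      show algebraMap K ℂ ((b : K) ^ m * aeval g P) = _
      rw [map_mul, map_pow, map_natCast, ← Polynomial.aeval_algebraMap_apply, hg]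
    rw [h2, mul_eq_zero] at h1
    rcases h1 with h1 | h1
    · exact absurd h1 (pow_ne_zero _ hbC)
    · rw [aeval_ofReal] at h1
      exact_mod_cast h1
  have hNint : IsIntegral ℤ (Algebra.norm ℚ β) := Algebra.isIntegral_norm ℚ hβint
  obtain ⟨N, hN⟩ : ∃ N : ℤ, (algebraMap ℤ ℚ) N = Algebra.norm ℚ β :=
    IsIntegrallyClosed.isIntegral_iff.mp hNint
  have hNne : N ≠ 0 := by
    rintro rfl
    rw [map_zero] at hN
    exact hβne (Algebra.norm_eq_zero_iff.mp hN.symm)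
  have hprod : (1 : ℝ) ≤ ∏ σ : K →ₐ[ℚ] ℂ, ‖σ β‖ := by
    have h1 := Algebra.norm_eq_prod_embeddings ℚ ℂ β
    rw [← hN] at h1
    have h2 : ‖((N : ℤ) : ℂ)‖ = ∏ σ : K →ₐ[ℚ] ℂ, ‖σ β‖ := by
      rw [← norm_prod, ← h1]; simp
    rw [← h2, Complex.norm_intCast]
    have : (1 : ℤ) ≤ |N| := Int.one_le_abs hNne
    exact_mod_cast this
  -- bounds on each embedding
  set S : ℝ := (b : ℝ) ^ m * ((m + 1) * B ^ m * ht P) with hS
  have hσ : ∀ σ : K →ₐ[ℚ] ℂ, ‖σ β‖ ≤ S := by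
    intro σ
    have h1 : σ β = (b : ℂ) ^ m * aeval (σ g) P := by
      show σ ((b : K) ^ m * aeval g P) = _
      rw [map_mul, map_pow, map_natCast]
      congr 1
      exact (Polynomial.aeval_algHom_apply (σ.restrictScalars ℤ) g P).symm
    have h2 : ‖σ g‖ = α := by
      have h3 : (b : ℂ) * (σ g) ^ k = a := by
        have := congrArg σ hgk
        rwa [map_mul, map_pow, map_natCast, map_natCast] at this
      have h4 : (σ g) ^ k = (α : ℂ) ^ k := by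
        apply mul_left_cancel₀ hbC; rw [h3, hαC]
      have h5 : ‖σ g‖ ^ k = α ^ k := by
        rw [← norm_pow, h4, norm_pow, Complex.norm_real, Real.norm_of_nonneg hα0]
      exact (pow_left_inj₀ (norm_nonneg _) hα0 hk.ne').mp h5
    rw [h1, norm_mul, norm_pow, Complex.norm_natCast]
    refine mul_le_mul_of_nonneg_left ?_ (by positivity)
    exact value_bound hB hP (h2.le.trans hαB)
  have hP0 : P ≠ 0 := by rintro rfl; simp at h
  have hS1 : 1 ≤ S := by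
    have h1 : (1 : ℝ) ≤ (b : ℝ) ^ m := one_le_pow₀ (by exact_mod_cast hb)
    have h2 : (1 : ℝ) ≤ B ^ m := one_le_pow₀ hB
    have h3 : (1 : ℝ) ≤ ht P := by exact_mod_cast one_le_ht hP0
    have h4 : (1 : ℝ) ≤ (m : ℝ) + 1 := by linarith [Nat.cast_nonneg (α := ℝ) m]
    have h5 : (1 : ℝ) ≤ (m + 1) * B ^ m * ht P :=
      one_le_mul_of_one_le_of_one_le (one_le_mul_of_one_le_of_one_le h4 h2) h3
    exact one_le_mul_of_one_le_of_one_le h1 h5
  let σ₀ : K →ₐ[ℚ] ℂ := K.val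
  have hσ₀ : ‖σ₀ β‖ = (b : ℝ) ^ m * |aeval α P| := by
    have h1 : σ₀ β = (b : ℂ) ^ m * aeval (σ₀ g) P := by
      show σ₀ ((b : K) ^ m * aeval g P) = _
      rw [map_mul, map_pow, map_natCast]
      congr 1
      exact (Polynomial.aeval_algHom_apply (σ₀.restrictScalars ℤ) g P).symm
    have h2 : σ₀ g = (α : ℂ) := hg
    rw [h1, h2, aeval_ofReal, norm_mul, norm_pow, Complex.norm_natCast, Complex.norm_real,
      Real.norm_eq_abs]
  have hcard : Fintype.card (K →ₐ[ℚ] ℂ) ≤ k := by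
    rw [AlgHom.card]; exact hdeg
  have h7 : (∏ σ : K →ₐ[ℚ] ℂ, ‖σ β‖) ≤ ‖σ₀ β‖ * S ^ (k - 1) := by
    rw [← Finset.mul_prod_erase Finset.univ _ (Finset.mem_univ σ₀)]
    refine mul_le_mul_of_nonneg_left ?_ (norm_nonneg _)
    calc ∏ σ ∈ Finset.univ.erase σ₀, ‖σ β‖ ≤ ∏ σ ∈ Finset.univ.erase σ₀, S :=
          Finset.prod_le_prod (fun _ _ => norm_nonneg _) fun σ _ => hσ σ
      _ = S ^ (Fintype.card (K →ₐ[ℚ] ℂ) - 1) := by
          rw [Finset.prod_const, Finset.card_erase_of_mem (Finset.mem_univ _), Finset.card_univ]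
      _ ≤ S ^ (k - 1) := pow_le_pow_right₀ hS1 (by omega)
  have h8 := hprod.trans h7
  rw [hσ₀, hS, mul_pow] at h8
  refine h8.trans (le_of_eq ?_)
  obtain ⟨k', rfl⟩ : ∃ k', k = k' + 1 := ⟨k - 1, by omega⟩
  simp only [Nat.add_sub_cancel]
  ring

lemma lower_of_dichotomy {x : ℝ} {N : ℕ} {V c D : ℝ} (hV : 0 ≤ V) (hc : 0 < c) (hD : 0 < D)
    (H : ∀ P : ℤ[X], P ≠ 0 → P.natDegree ≤ N →
      c * (ht P : ℝ) ^ (-V) ≤ |aeval x P| ∨
      ∃ Q R : ℤ[X], ∃ h : ℝ, 0 < h ∧ P = Q * R ∧ R.natDegree < P.natDegree ∧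
        c * h ^ (-V) ≤ |aeval x Q| ∧ h * ht R ≤ D * ht P) :
    ∃ c' : ℝ, 0 < c' ∧ ∀ P : ℤ[X], P ≠ 0 → P.natDegree ≤ N →
      c' * (ht P : ℝ) ^ (-V) ≤ |aeval x P| := by
  have key : ∀ d : ℕ, ∃ c' : ℝ, 0 < c' ∧ ∀ P : ℤ[X], P ≠ 0 → P.natDegree ≤ N → P.natDegree < d →
      c' * (ht P : ℝ) ^ (-V) ≤ |aeval x P| := by
    intro d
    induction d with
    | zero => exact ⟨1, one_pos, fun P _ _ h => absurd h (Nat.not_lt_zero _)⟩
    | succ d ih =>
      obtain ⟨c', hc', ih⟩ := ih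
      refine ⟨min c (c * c' * D ^ (-V)), lt_min hc (by positivity), ?_⟩
      intro P hP0 hPN hPd
      have hHpos : 0 ≤ (ht P : ℝ) ^ (-V) := by positivity
      rcases H P hP0 hPN with h1 | ⟨Q, R, h, hh, hPQR, hdeg, hQ, hR⟩
      · exact (mul_le_mul_of_nonneg_right (min_le_left _ _) hHpos).trans h1
      · have hR0 : R ≠ 0 := by rintro rfl; simp at hPQR; exact hP0 hPQR
        have h2 := ih R hR0 (by omega) (by omega)
        have hHR : (0 : ℝ) < ht R := by exact_mod_cast one_le_ht hR0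
        have hHP : (0 : ℝ) < ht P := by exact_mod_cast one_le_ht hP0
        calc min c (c * c' * D ^ (-V)) * (ht P : ℝ) ^ (-V)
            ≤ (c * c' * D ^ (-V)) * (ht P : ℝ) ^ (-V) :=
              mul_le_mul_of_nonneg_right (min_le_right _ _) hHpos
          _ = c * c' * (D * ht P) ^ (-V) := by
              rw [Real.mul_rpow hD.le hHP.le]; ring
          _ ≤ c * c' * (h * ht R) ^ (-V) := by
              gcongr ?_ * ?_
              exact Real.rpow_le_rpow_of_nonpos (by positivity) hR (by linarith)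
          _ = (c * h ^ (-V)) * (c' * (ht R : ℝ) ^ (-V)) := by
              rw [Real.mul_rpow hh.le hHR.le]; ring
          _ ≤ |aeval x Q| * |aeval x R| := by gcongr
          _ = |aeval x P| := by rw [hPQR, map_mul, abs_mul]
  obtain ⟨c', hc', h⟩ := key (N + 1)
  exact ⟨c', hc', fun P h1 h2 => h P h1 h2 (by omega)⟩

/-- If `C * H ^ (-V) ≤ E * H ^ (-w)` with `w > V`, then `H` is bounded. -/
lemma bounded_of_rpow {c E V w : ℝ} (hc : 0 < c) (hE : 0 ≤ E) (hVw : V < w) :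
    ∃ M : ℕ, ∀ H : ℕ, 1 ≤ H → c * (H : ℝ) ^ (-V) ≤ E * (H : ℝ) ^ (-w) → H ≤ M := by
  refine ⟨⌈(E / c) ^ (1 / (w - V))⌉₊, fun H hH h => ?_⟩
  have hH' : (0 : ℝ) < H := by exact_mod_cast hH
  have h1 : (H : ℝ) ^ (w - V) ≤ E / c := by
    rw [le_div_iff₀ hc]
    have e1 : (H : ℝ) ^ (w - V) = (H : ℝ) ^ w * (H : ℝ) ^ (-V) := by
      rw [← Real.rpow_add hH']; ring_nf
    have e2 : (H : ℝ) ^ w * (H : ℝ) ^ (-w) = 1 := by
      rw [← Real.rpow_add hH']; simp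
    calc (H : ℝ) ^ (w - V) * c = (H : ℝ) ^ w * (c * (H : ℝ) ^ (-V)) := by rw [e1]; ring
      _ ≤ (H : ℝ) ^ w * (E * (H : ℝ) ^ (-w)) := by gcongr
      _ = E * ((H : ℝ) ^ w * (H : ℝ) ^ (-w)) := by ring
      _ = E := by rw [e2, mul_one]
  have h2 : (H : ℝ) ≤ (E / c) ^ (1 / (w - V)) := by
    have h3 : ((H : ℝ) ^ (w - V)) ^ (1 / (w - V)) = H := by
      rw [← Real.rpow_mul hH'.le, mul_one_div_cancel (by linarith), Real.rpow_one]
    rw [← h3]
    exact Real.rpow_le_rpow (by positivity) h1 (by apply one_div_nonneg.mpr; linarith)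
  exact_mod_cast h2.trans (Nat.le_ceil _)

lemma wExp_le {N : ℕ} {x : ℝ} {V : NNReal} {c : ℝ} (hc : 0 < c)
    (h : ∀ P : ℤ[X], P ≠ 0 → P.natDegree ≤ N → c * (ht P : ℝ) ^ (-(V : ℝ)) ≤ |aeval x P|) :
    wExp N x ≤ V := by
  refine iSup₂_le fun w hw => ?_
  by_contra hlt
  rw [not_le] at hlt
  have hVw : (V : ℝ) < w := by exact_mod_cast hlt
  obtain ⟨M, hM⟩ := bounded_of_rpow hc zero_le_one hVw
  refine hw ((finite_ht_le N M).subset ?_)
  rintro P ⟨h1, h2, h3⟩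
  have hP0 : P ≠ 0 := by rintro rfl; simp at h2
  refine ⟨h1, hM _ (one_le_ht hP0) ?_⟩
  rw [one_mul]
  exact (h P hP0 h1).trans h3

lemma wStar_le {N : ℕ} {x : ℝ} {V : NNReal} {c : ℝ} (hc : 0 < c)
    (h : ∀ P : ℤ[X], P ≠ 0 → P.natDegree ≤ N → c * (ht P : ℝ) ^ (-(V : ℝ)) ≤ |aeval x P|) :
    wStar N x ≤ V := by
  refine iSup₂_le fun w hw => ?_
  by_contra hlt
  rw [not_le] at hlt
  have hVw : (V : ℝ) < w := by exact_mod_cast hlt
  set B : ℝ := |x| + 1 with hB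
  have hB1 : 1 ≤ B := by have := abs_nonneg x; linarith
  have hL : 0 ≤ lipC B N := by unfold lipC; positivity
  obtain ⟨M, hM⟩ := bounded_of_rpow hc hL hVw
  have hfin : (⋃ P ∈ {P : ℤ[X] | (P.natDegree ≤ N ∧ ht P ≤ M) ∧ P ≠ 0},
      {α : ℂ | aeval α P = 0}).Finite := by
    refine Set.Finite.biUnion ((finite_ht_le N M).subset fun P hP => hP.1) ?_
    rintro P ⟨_, hP0⟩
    have hP' : P.map (algebraMap ℤ ℂ) ≠ 0 :=
      (Polynomial.map_ne_zero_iff (algebraMap ℤ ℂ).injective_int).mpr hP0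
    refine ((P.map (algebraMap ℤ ℂ)).roots.toFinset.finite_toSet).subset ?_
    intro α hα
    simp only [Finset.mem_coe, Multiset.mem_toFinset, mem_roots hP', IsRoot.def,
      eval_map_algebraMap]
    exact hα
  refine hw (hfin.subset ?_)
  rintro α ⟨P, hirr, hroot, hdeg, h0, hle⟩
  have hP0 : P ≠ 0 := hirr.ne_zero
  have hH1 : (1 : ℝ) ≤ ht P := by exact_mod_cast one_le_ht hP0
  have hH0 : (0 : ℝ) < ht P := by linarith
  have hw0 : (0 : ℝ) ≤ w := w.2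
  have hle1 : ‖(x : ℂ) - α‖ ≤ 1 := hle.trans (Real.rpow_le_one_of_one_le_of_nonpos hH1 (by linarith))
  have hα : ‖α‖ ≤ B := by
    calc ‖α‖ = ‖(x : ℂ) - ((x : ℂ) - α)‖ := by ring_nf
      _ ≤ ‖(x : ℂ)‖ + ‖(x : ℂ) - α‖ := norm_sub_le _ _
      _ ≤ |x| + 1 := by
          rw [Complex.norm_real, Real.norm_eq_abs]; linarith
  have hx : ‖(x : ℂ)‖ ≤ B := by
    rw [Complex.norm_real, Real.norm_eq_abs]; linarith
  have h1 := lipschitz_bound hB1 hdeg hx hα
  rw [hroot, sub_zero, aeval_ofReal, Complex.norm_real, Real.norm_eq_abs] at h1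
  simp only [Set.mem_iUnion, Set.mem_ofPred_eq]
  refine ⟨P, ⟨⟨hdeg, hM _ (one_le_ht hP0) ?_⟩, hP0⟩, hroot⟩
  calc c * (ht P : ℝ) ^ (-(V : ℝ)) ≤ |aeval x P| := h P hP0 hdeg
    _ ≤ lipC B N * ht P * ‖(x : ℂ) - α‖ := h1
    _ ≤ lipC B N * ht P * (ht P : ℝ) ^ (-(w : ℝ) - 1) := by gcongr
    _ = lipC B N * (ht P : ℝ) ^ (-(w : ℝ)) := by
        rw [Real.rpow_sub_one hH0.ne']; field_simp

/-- The polynomial `u X^d - v`. -/
noncomputable def binom (u v d : ℕ) : ℤ[X] := C (u : ℤ) * X ^ d - C (v : ℤ)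

lemma coeff_binom (u v d i : ℕ) (hd : 0 < d) :
    (binom u v d).coeff i = if i = d then (u : ℤ) else if i = 0 then -(v : ℤ) else 0 := by
  unfold binom
  rw [coeff_sub, coeff_C_mul, coeff_X_pow, coeff_C]
  rcases eq_or_ne i d with h | h
  · subst h; simp [hd.ne']
  · by_cases h0 : i = 0
    · subst h0; simp [hd.ne]
    · simp [h, h0]

lemma natDegree_binom {u v d : ℕ} (hu : 0 < u) (hd : 0 < d) : (binom u v d).natDegree = d := by
  unfold binom
  rw [natDegree_sub_C, natDegree_C_mul_X_pow]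
  exact_mod_cast hu.ne'

lemma ht_binom_le (u v d : ℕ) (hd : 0 < d) : ht (binom u v d) ≤ max u v := by
  refine ht_le fun i => ?_
  rw [coeff_binom u v d i hd]
  split_ifs <;> simp

lemma le_ht_binom (u v d : ℕ) (hd : 0 < d) : u ≤ ht (binom u v d) := by
  have := natAbs_coeff_le_ht (binom u v d) d
  rw [coeff_binom u v d d hd] at this
  simpa using this

lemma aeval_binom (u v d : ℕ) (x : ℝ) : aeval x (binom u v d) = u * x ^ d - v := by
  simp [binom]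

lemma isPrimitive_binom {u v d : ℕ} (hd : 0 < d) (hco : Nat.Coprime u v) :
    (binom u v d).IsPrimitive := by
  intro r hr
  rw [C_dvd_iff_dvd_coeff] at hr
  have h1 := hr d
  have h2 := hr 0
  rw [coeff_binom u v d d hd] at h1
  rw [coeff_binom u v d 0 hd] at h2
  simp only [if_true] at h1
  rw [if_neg hd.ne, if_pos rfl, dvd_neg] at h2
  have h3 : r ∣ ((Nat.gcd u v : ℕ) : ℤ) := by
    rw [← Int.gcd_natCast_natCast]; exact Int.dvd_coe_gcd h1 h2
  rw [hco] at h3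
  exact isUnit_of_dvd_one (by simpa using h3)

lemma irreducible_linear {u v : ℕ} (hu : 0 < u) (hco : Nat.Coprime u v) :
    Irreducible (binom u v 1) := by
  rw [IsPrimitive.Int.irreducible_iff_irreducible_map_cast (isPrimitive_binom one_pos hco)]
  apply irreducible_of_degree_eq_one
  rw [degree_map_eq_of_injective (Int.castRingHom ℚ).injective_int,
    degree_eq_natDegree, natDegree_binom hu one_pos]
  · rfl
  · intro h
    have := natDegree_binom (v := v) hu one_pos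
    rw [h] at this; simp at this

lemma irreducible_binom {u v d : ℕ} (hu : 0 < u) (hd : 0 < d) (hco : Nat.Coprime u v)
    (hu2 : ¬ 2 ∣ u) (hv2 : 2 ∣ v) (hv4 : ¬ 4 ∣ v) : Irreducible (binom u v d) := by
  have hp : (Ideal.span {(2 : ℤ)}).IsPrime :=
    (Ideal.span_singleton_prime two_ne_zero).mpr Int.prime_two
  have hne : binom u v d ≠ 0 := by
    intro h
    have := natDegree_binom (v := v) hu hd
    rw [h] at this; simp at this; omega
  refine irreducible_of_eisenstein_criterion hp ?_ ?_ ?_ ?_ (isPrimitive_binom hd hco)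
  · rw [leadingCoeff, natDegree_binom hu hd, coeff_binom u v d d hd, if_pos rfl,
      Ideal.mem_span_singleton]
    intro h; exact hu2 (by exact_mod_cast h)
  · intro i hi
    rw [degree_eq_natDegree hne, natDegree_binom hu hd] at hi
    have hi' : i < d := by exact_mod_cast hi
    rw [coeff_binom u v d i hd, if_neg hi'.ne, Ideal.mem_span_singleton]
    split_ifs
    · rw [dvd_neg]; exact_mod_cast hv2
    · exact dvd_zero _
  · rw [degree_eq_natDegree hne, natDegree_binom hu hd]; exact_mod_cast hd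
  · rw [coeff_binom u v d 0 hd, if_neg hd.ne, if_pos rfl, Ideal.span_singleton_pow,
      Ideal.mem_span_singleton, dvd_neg]
    intro h; exact hv4 (by exact_mod_cast h)

lemma exponents_ge {N : ℕ} (hN : 1 ≤ N) {x : ℝ} {V : NNReal} {C₀ : ℝ} (hC₀ : 0 < C₀)
    (h : ∀ M : ℕ, ∃ p q : ℕ, M < q ∧ Nat.Coprime q p ∧ 0 < |x - (p : ℝ) / q| ∧
      |x - (p : ℝ) / q| ≤ C₀ * (q : ℝ) ^ (-((V : ℝ) + 1))) :
    (V : ENNReal) ≤ wExp N x ∧ (V : ENNReal) ≤ wStar N x := by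
  -- common estimate
  have main : ∀ w : NNReal, w < V → ∀ M : ℕ, ∃ p q : ℕ, M < q ∧ Nat.Coprime q p ∧
      0 < |x - (p : ℝ) / q| ∧
      |x - (p : ℝ) / q| ≤ (ht (binom q p 1) : ℝ) ^ (-(w : ℝ) - 1) ∧
      (q : ℝ) * |x - (p : ℝ) / q| ≤ (ht (binom q p 1) : ℝ) ^ (-(w : ℝ)) ∧
      |x - (p : ℝ) / q| ≤ C₀ / q := by
    intro w hw M
    have hw' : (w : ℝ) < V := by exact_mod_cast hw
    have hw0 : (0 : ℝ) ≤ w := w.2
    set D : ℝ := |x| + C₀ + 1 with hD
    have hD1 : 1 ≤ D := by have := abs_nonneg x; linarith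
    have htend : Filter.Tendsto (fun q : ℕ => (q : ℝ) ^ ((V : ℝ) - w)) Filter.atTop Filter.atTop :=
      (tendsto_rpow_atTop (by linarith)).comp tendsto_natCast_atTop_atTop
    obtain ⟨M', hM'⟩ := Filter.eventually_atTop.mp
      (htend.eventually_ge_atTop (C₀ * D ^ ((w : ℝ) + 1)))
    obtain ⟨p, q, hq, hco, h0, h1⟩ := h (max M M')
    have hq0 : 0 < q := by omega
    have hq0' : (0 : ℝ) < q := by exact_mod_cast hq0
    have hq1' : (1 : ℝ) ≤ q := by exact_mod_cast hq0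
    have h2 : C₀ * D ^ ((w : ℝ) + 1) ≤ (q : ℝ) ^ ((V : ℝ) - w) := hM' q (by omega)
    have hle : |x - (p : ℝ) / q| ≤ C₀ / q := by
      refine h1.trans ?_
      rw [div_eq_mul_inv, ← Real.rpow_neg_one]
      refine mul_le_mul_of_nonneg_left ?_ hC₀.le
      exact Real.rpow_le_rpow_of_exponent_le hq1' (by linarith)
    have hp : (p : ℝ) ≤ D * q := by
      have h3 : (p : ℝ) / q ≤ |x| + C₀ := by
        have h4 := abs_sub_abs_le_abs_sub ((p : ℝ) / q) x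
        rw [abs_sub_comm] at h4
        have h5 : C₀ / q ≤ C₀ := div_le_self hC₀.le hq1'
        have h6 : (p : ℝ) / q ≤ |(p : ℝ) / q| := le_abs_self _
        linarith
      rw [div_le_iff₀ hq0'] at h3
      calc (p : ℝ) ≤ (|x| + C₀) * q := h3
        _ ≤ D * q := by gcongr; linarith
    have hht : (ht (binom q p 1) : ℝ) ≤ D * q := by
      have h3 : (ht (binom q p 1) : ℝ) ≤ max (q : ℝ) p := by
        exact_mod_cast ht_binom_le q p 1 one_pos
      refine h3.trans (max_le ?_ hp)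
      nlinarith
    have hht0 : (0 : ℝ) < ht (binom q p 1) := by
      have := le_ht_binom q p 1 one_pos
      have : 0 < ht (binom q p 1) := by omega
      exact_mod_cast this
    have hstar : |x - (p : ℝ) / q| ≤ (ht (binom q p 1) : ℝ) ^ (-(w : ℝ) - 1) := by
      calc |x - (p : ℝ) / q| ≤ C₀ * (q : ℝ) ^ (-((V : ℝ) + 1)) := h1
        _ ≤ (D * q) ^ (-(w : ℝ) - 1) := by
            rw [Real.mul_rpow (by linarith) hq0'.le]
            have e1 : (q : ℝ) ^ (-(w : ℝ) - 1) =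
                (q : ℝ) ^ ((V : ℝ) - w) * (q : ℝ) ^ (-((V : ℝ) + 1)) := by
              rw [← Real.rpow_add hq0']; ring_nf
            have e2 : D ^ (-(w : ℝ) - 1) * D ^ ((w : ℝ) + 1) = 1 := by
              rw [← Real.rpow_add (by linarith)]; ring_nf; simp
            rw [e1]
            calc C₀ * (q : ℝ) ^ (-((V : ℝ) + 1))
                = D ^ (-(w : ℝ) - 1) * (C₀ * D ^ ((w : ℝ) + 1)) * (q : ℝ) ^ (-((V : ℝ) + 1)) := by
                  linear_combination (-(C₀ * (q : ℝ) ^ (-((V : ℝ) + 1)))) * e2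
              _ ≤ D ^ (-(w : ℝ) - 1) * (q : ℝ) ^ ((V : ℝ) - w) * (q : ℝ) ^ (-((V : ℝ) + 1)) := by
                  gcongr
              _ = _ := by ring
        _ ≤ (ht (binom q p 1) : ℝ) ^ (-(w : ℝ) - 1) :=
            Real.rpow_le_rpow_of_nonpos hht0 hht (by linarith)
    refine ⟨p, q, by omega, hco, h0, hstar, ?_, hle⟩
    have h7 : (q : ℝ) ≤ ht (binom q p 1) := by exact_mod_cast le_ht_binom q p 1 one_pos
    calc (q : ℝ) * |x - (p : ℝ) / q|
        ≤ ht (binom q p 1) * (ht (binom q p 1) : ℝ) ^ (-(w : ℝ) - 1) := by gcongr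
      _ = (ht (binom q p 1) : ℝ) ^ (-(w : ℝ)) := by
          rw [Real.rpow_sub_one hht0.ne']; field_simp
  constructor
  · refine ENNReal.le_of_forall_nnreal_lt fun w hw => ?_
    have hw' : w < V := by exact_mod_cast hw
    refine le_iSup₂_of_le w ?_ le_rfl
    refine Set.Infinite.of_image ht (Set.infinite_of_forall_exists_gt fun M => ?_)
    obtain ⟨p, q, hq, hco, h0, _, h2, _⟩ := main w hw' M
    have hq0 : 0 < q := by omega
    have hq0' : (0 : ℝ) < q := by exact_mod_cast hq0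
    have hval : |aeval x (binom q p 1)| = (q : ℝ) * |x - (p : ℝ) / q| := by
      rw [aeval_binom, pow_one, ← abs_of_pos hq0', ← abs_mul, abs_of_pos hq0']
      congr 1; field_simp
    refine ⟨_, ⟨binom q p 1, ⟨?_, ?_, ?_⟩, rfl⟩, lt_of_lt_of_le hq (le_ht_binom q p 1 one_pos)⟩
    · rw [natDegree_binom hq0 one_pos]; exact hN
    · rw [hval]; positivity
    · rw [hval]; exact h2
  · refine ENNReal.le_of_forall_nnreal_lt fun w hw => ?_
    have hw' : w < V := by exact_mod_cast hw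
    refine le_iSup₂_of_le w ?_ le_rfl
    refine Set.Infinite.of_image (fun α : ℂ => ‖(x : ℂ) - α‖⁻¹)
      (Set.infinite_of_forall_exists_gt fun M => ?_)
    obtain ⟨M', hM'⟩ := exists_nat_gt (C₀ * |M|)
    obtain ⟨p, q, hq, hco, h0, h1, _, h3⟩ := main w hw' M'
    have hq0 : 0 < q := by omega
    have hq0' : (0 : ℝ) < q := by exact_mod_cast hq0
    have hnorm : ‖(x : ℂ) - (((p : ℝ) / q : ℝ) : ℂ)‖ = |x - (p : ℝ) / q| := by
      rw [← Complex.ofReal_sub, Complex.norm_real, Real.norm_eq_abs]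
    refine ⟨_, ⟨(((p : ℝ) / q : ℝ) : ℂ), ⟨binom q p 1, irreducible_linear hq0 hco, ?_, ?_, ?_, ?_⟩,
      rfl⟩, ?_⟩
    · rw [aeval_ofReal, aeval_binom, pow_one]
      simp only [Complex.ofReal_eq_zero]
      field_simp; ring
    · rw [natDegree_binom hq0 one_pos]; exact hN
    · rw [hnorm]; exact h0
    · rw [hnorm]; exact h1
    · simp only [hnorm]
      have h4 : |M| < (|x - (p : ℝ) / q|)⁻¹ := by
        rw [← one_div, lt_div_iff₀ h0]
        have h5 : (M' : ℝ) < q := by exact_mod_cast hq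
        calc |M| * |x - (p : ℝ) / q| ≤ |M| * (C₀ / q) := by gcongr
          _ = C₀ * |M| / q := by ring
          _ < 1 := by rw [div_lt_one hq0']; linarith
      exact (le_abs_self M).trans_lt h4

/-- Covering of all heights. -/
lemma cover {q b : ℕ → ℕ} {W DA DB CA CB : ℝ} {w k m : ℕ} (hk : 1 ≤ k)
    (hDA : 1 ≤ DA) (hDB : 1 ≤ DB) (hCA : 0 < CA) (hCB : 0 < CB)
    (hWm : 2 * (m : ℝ) ≤ W) (hwm : 2 * m * k ≤ w)
    (hqA : ∀ j, CA * DA ^ 2 ≤ q j) (hbB : ∀ j, CB * DB ^ 2 ≤ b j)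
    (hq1 : ∀ j, 1 ≤ q j) (hb1 : ∀ j, 1 ≤ b j) (hbj : ∀ j, j ≤ b j)
    (hbq : ∀ j, (b j : ℝ) ≤ CA * (q j : ℝ) ^ (W + 1))
    (hqb : ∀ j, (q (j + 1) : ℝ) ≤ CB * (b j : ℝ) ^ (w + 1))
    {H : ℕ} (hH : 1 ≤ H) :
    ∃ j, (DA * H * (q j : ℝ) ^ m ≤ (q j : ℝ) ^ (W + 1) ∧ (j = 0 ∨ q j ≤ H ^ (2 * k))) ∨
      (DB * (H : ℝ) ^ k * (b j : ℝ) ^ (m * k) ≤ (b j : ℝ) ^ (w + 1) ∧ b j ≤ H ^ 2) := by
  classical
  have hHR : (1 : ℝ) ≤ H := by exact_mod_cast hH
  -- existence of some j with (hiB)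
  have hex : ∃ j, DB * (H : ℝ) ^ k * (b j : ℝ) ^ (m * k) ≤ (b j : ℝ) ^ (w + 1) := by
    obtain ⟨j, hj⟩ := exists_nat_ge (DB * (H : ℝ) ^ k)
    refine ⟨j, ?_⟩
    have h1 : (1 : ℝ) ≤ b j := by exact_mod_cast hb1 j
    have h2 : (j : ℝ) ≤ b j := by exact_mod_cast hbj j
    calc DB * (H : ℝ) ^ k * (b j : ℝ) ^ (m * k) ≤ (b j : ℝ) * (b j : ℝ) ^ (m * k) := by
          gcongr; linarith
      _ = (b j : ℝ) ^ (m * k + 1) := by ring
      _ ≤ (b j : ℝ) ^ (w + 1) := by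
          apply pow_le_pow_right₀ h1; nlinarith [Nat.zero_le (m * k)]
  refine ⟨Nat.find hex, ?_⟩
  set j := Nat.find hex with hj
  have hBj : DB * (H : ℝ) ^ k * (b j : ℝ) ^ (m * k) ≤ (b j : ℝ) ^ (w + 1) := Nat.find_spec hex
  by_cases hA : DA * H * (q j : ℝ) ^ m ≤ (q j : ℝ) ^ (W + 1)
  · left
    refine ⟨hA, ?_⟩
    rcases Nat.eq_zero_or_pos j with h0 | hpos
    · exact Or.inl h0
    · right
      obtain ⟨i, hi⟩ : ∃ i, j = i + 1 := ⟨j - 1, by omega⟩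
      have hnot : (b i : ℝ) ^ (w + 1) < DB * (H : ℝ) ^ k * (b i : ℝ) ^ (m * k) := by
        have := Nat.find_min hex (m := i) (by omega)
        exact not_le.mp this
      have hb1' : (1 : ℝ) ≤ b i := by exact_mod_cast hb1 i
      have hb0 : (0 : ℝ) < b i := by linarith
      have e1 : (b i : ℝ) ^ (w + 1) = (b i : ℝ) ^ (w + 1 - m * k) * (b i : ℝ) ^ (m * k) := by
        rw [← pow_add]; congr 1
        have : m * k ≤ w := by nlinarith [Nat.zero_le (m * k)]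
        omega
      have h1 : (b i : ℝ) ^ (w + 1 - m * k) < DB * (H : ℝ) ^ k := by
        rw [e1] at hnot
        exact lt_of_mul_lt_mul_right hnot (by positivity)
      have h2 : ((b i : ℝ) ^ (w + 1 - m * k)) ^ 2 < (DB * (H : ℝ) ^ k) ^ 2 := by
        gcongr
      have h3 : (b i : ℝ) ^ (w + 1) * (CB * DB ^ 2) ≤ ((b i : ℝ) ^ (w + 1 - m * k)) ^ 2 := by
        calc (b i : ℝ) ^ (w + 1) * (CB * DB ^ 2) ≤ (b i : ℝ) ^ (w + 1) * b i := by
              gcongr; exact hbB i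
          _ = (b i : ℝ) ^ (w + 2) := by ring
          _ ≤ (b i : ℝ) ^ ((w + 1 - m * k) * 2) := by
              apply pow_le_pow_right₀ hb1'
              have : 2 * (m * k) ≤ w := by nlinarith
              omega
          _ = _ := by rw [pow_mul]
      have h4 : CB * (b i : ℝ) ^ (w + 1) < ((H : ℝ) ^ k) ^ 2 := by
        have h5 : DB ^ 2 * (CB * (b i : ℝ) ^ (w + 1)) < DB ^ 2 * ((H : ℝ) ^ k) ^ 2 := by
          calc DB ^ 2 * (CB * (b i : ℝ) ^ (w + 1)) = (b i : ℝ) ^ (w + 1) * (CB * DB ^ 2) := by ring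
            _ < (DB * (H : ℝ) ^ k) ^ 2 := h3.trans_lt h2
            _ = _ := by ring
        exact lt_of_mul_lt_mul_left h5 (by positivity)
      have h6 : (q j : ℝ) < (H : ℝ) ^ (2 * k) := by
        rw [hi]
        calc (q (i + 1) : ℝ) ≤ CB * (b i : ℝ) ^ (w + 1) := hqb i
          _ < ((H : ℝ) ^ k) ^ 2 := h4
          _ = _ := by rw [← pow_mul, mul_comm]
      exact_mod_cast h6.le
  · right
    rw [not_le] at hA
    refine ⟨hBj, ?_⟩
    have hq1' : (1 : ℝ) ≤ q j := by exact_mod_cast hq1 j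
    have hq0 : (0 : ℝ) < q j := by linarith
    have e1 : (q j : ℝ) ^ (W + 1) = (q j : ℝ) ^ (W + 1 - m) * (q j : ℝ) ^ m := by
      rw [← Real.rpow_natCast, ← Real.rpow_add hq0]; ring_nf
    have h1 : (q j : ℝ) ^ (W + 1 - m) < DA * H := by
      rw [e1] at hA
      exact lt_of_mul_lt_mul_right hA (by positivity)
    have h2 : ((q j : ℝ) ^ (W + 1 - m)) ^ 2 < (DA * H) ^ 2 := by
      gcongr
    have h3 : (q j : ℝ) ^ (W + 1) * (CA * DA ^ 2) ≤ ((q j : ℝ) ^ (W + 1 - m)) ^ 2 := by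
      calc (q j : ℝ) ^ (W + 1) * (CA * DA ^ 2) ≤ (q j : ℝ) ^ (W + 1) * q j := by
            gcongr; exact hqA j
        _ = (q j : ℝ) ^ (W + 2) := by
            rw [← Real.rpow_add_one hq0.ne']; ring_nf
        _ ≤ (q j : ℝ) ^ ((W + 1 - m) * 2) := by
            apply Real.rpow_le_rpow_of_exponent_le hq1'
            linarith
        _ = _ := by rw [Real.rpow_mul hq0.le]; norm_num
    have h4 : CA * (q j : ℝ) ^ (W + 1) < (H : ℝ) ^ 2 := by
      have h5 : DA ^ 2 * (CA * (q j : ℝ) ^ (W + 1)) < DA ^ 2 * (H : ℝ) ^ 2 := by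
        calc DA ^ 2 * (CA * (q j : ℝ) ^ (W + 1)) = (q j : ℝ) ^ (W + 1) * (CA * DA ^ 2) := by ring
          _ < (DA * H) ^ 2 := h3.trans_lt h2
          _ = _ := by ring
      exact lt_of_mul_lt_mul_left h5 (by positivity)
    have h6 : (b j : ℝ) < (H : ℝ) ^ 2 := (hbq j).trans_lt h4
    exact_mod_cast h6.le

lemma sub_le_pow_sub_pow {x y : ℝ} (hx : 1 ≤ x) (hxy : x ≤ y) {k : ℕ} (hk : 1 ≤ k) :
    y - x ≤ y ^ k - x ^ k := by
  induction k, hk using Nat.le_induction with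
  | base => simp
  | succ k _ ih =>
    have hy : 1 ≤ y := hx.trans hxy
    have h0 : 0 ≤ y ^ k - x ^ k := by linarith
    have h1 : 0 ≤ x ^ k * (y - x) := mul_nonneg (by positivity) (by linarith)
    calc y - x ≤ y ^ k - x ^ k := ih
      _ ≤ y * (y ^ k - x ^ k) := by nlinarith
      _ ≤ y * (y ^ k - x ^ k) + x ^ k * (y - x) := by linarith
      _ = y ^ (k + 1) - x ^ (k + 1) := by ring

lemma pow_sub_pow_le {x y : ℝ} (hx : 0 ≤ x) (hxy : x ≤ y) (hy : y ≤ 2) (k : ℕ) :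
    y ^ k - x ^ k ≤ k * 2 ^ k * (y - x) := by
  induction k with
  | zero => simp
  | succ k ih =>
    have hx2 : x ≤ 2 := hxy.trans hy
    have h1 : y ^ k ≤ 2 ^ k := by
      have : 0 ≤ y := hx.trans hxy
      gcongr
    have hd : 0 ≤ y - x := by linarith
    calc y ^ (k + 1) - x ^ (k + 1) = x * (y ^ k - x ^ k) + y ^ k * (y - x) := by ring
      _ ≤ x * (k * 2 ^ k * (y - x)) + 2 ^ k * (y - x) := by gcongr
      _ ≤ 2 * (k * 2 ^ k * (y - x)) + 2 ^ (k + 1) * (y - x) := by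
          gcongr
          · norm_num
          · omega
      _ = _ := by push_cast; ring

lemma exists_pow_between (c : ℕ) (hc : 2 ≤ c) {y : ℝ} (hy : 1 ≤ y) :
    ∃ T : ℕ, 1 ≤ T ∧ y ≤ (c : ℝ) ^ T ∧ (c : ℝ) ^ T ≤ c * y := by
  have hc' : (1 : ℝ) < c := by exact_mod_cast hc
  obtain ⟨n, h1, h2⟩ := exists_nat_pow_near hy hc'
  refine ⟨n + 1, by omega, h2.le, ?_⟩
  rw [pow_succ, mul_comm]
  gcongr

/-- Left endpoint-type length. -/
noncomputable def len (W : ℝ) (q : ℕ) : ℝ := (q : ℝ) ^ (-(W + 1))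

lemma len_pos {W : ℝ} {q : ℕ} (hq : 1 ≤ q) : 0 < len W q := by
  have : (0 : ℝ) < q := by exact_mod_cast hq
  unfold len; positivity

lemma len_mul {W : ℝ} {q : ℕ} (hq : 1 ≤ q) : len W q * (q : ℝ) ^ (W + 1) = 1 := by
  have : (0 : ℝ) < q := by exact_mod_cast hq
  unfold len
  rw [← Real.rpow_add this]; simp

lemma len_le {W : ℝ} (hW : 0 ≤ W) {q : ℕ} (hq : 1 ≤ q) : len W q ≤ 1 / q := by
  have h1 : (1 : ℝ) ≤ q := by exact_mod_cast hq
  unfold len
  rw [one_div, ← Real.rpow_neg_one]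
  exact Real.rpow_le_rpow_of_exponent_le h1 (by linarith)

lemma avoid {l r : ℝ} (hlr : l < r) (t : ℝ) :
    ∃ l' r' : ℝ, l ≤ l' ∧ r' ≤ r ∧ r' - l' = (r - l) / 3 ∧ ∀ x, l' ≤ x → x ≤ r' → x ≠ t := by
  by_cases h : t < (l + r) / 2
  · refine ⟨r - (r - l) / 3, r, by linarith, le_rfl, by ring, fun x h1 _ hx => ?_⟩
    linarith
  · refine ⟨l, l + (r - l) / 3, le_rfl, by linarith, by ring, fun x _ h2 hx => ?_⟩
    linarith

lemma exists_nat_mod {y : ℝ} (hy : 0 ≤ y) (c d : ℕ) (hc : 0 < c) (hd : d < c) (hyd : (d : ℝ) ≤ y) :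
    ∃ a : ℕ, a % c = d ∧ y ≤ a ∧ (a : ℝ) ≤ y + c := by
  have hc' : (0 : ℝ) < c := by exact_mod_cast hc
  refine ⟨c * ⌈(y - d) / c⌉₊ + d, ?_, ?_, ?_⟩
  · rw [Nat.mul_add_mod, Nat.mod_eq_of_lt hd]
  · have := Nat.le_ceil ((y - d) / c)
    rw [div_le_iff₀ hc'] at this
    push_cast; linarith
  · have := Nat.ceil_lt_add_one (a := (y - d) / c) (by apply div_nonneg <;> linarith)
    push_cast
    have h2 : (c : ℝ) * ⌈(y - d) / c⌉₊ ≤ c * ((y - d) / c + 1) := by gcongr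
    have h3 : (c : ℝ) * ((y - d) / c + 1) = y - d + c := by field_simp
    linarith

lemma step {W : ℝ} (hW : 0 ≤ W) (w : ℕ) {k : ℕ} (hk : 1 ≤ k) {p q : ℕ} (hq : 1 ≤ q)
    (h1 : 1 ≤ (p : ℝ) / q) (h2 : (p : ℝ) / q + 2 * len W q ≤ 2) (t : ℝ) :
    ∃ a b p' q' : ℕ, (Nat.Coprime b a ∧ ¬ 2 ∣ b ∧ 2 ∣ a ∧ ¬ 4 ∣ a ∧ q ≤ b ∧ 
      (b : ℝ) ≤ 216 * (q : ℝ) ^ (W + 1)) ∧
      (Nat.Coprime q' p' ∧ b < q' ∧ (q' : ℝ) ≤ (8 * k * 2 ^ k) * (b : ℝ) ^ (w + 1) ∧
        1 ≤ (p' : ℝ) / q' ∧ (p' : ℝ) / q' + 2 * len W q' ≤ 2) ∧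
      ∀ x : ℝ, (p' : ℝ) / q' + len W q' ≤ x → x ≤ (p' : ℝ) / q' + 2 * len W q' →
        ((p : ℝ) / q + len W q ≤ x ∧ x ≤ (p : ℝ) / q + 2 * len W q) ∧ x ≠ t ∧
        1 / (b : ℝ) ^ (w + 1) ≤ x ^ k - a / b ∧ x ^ k - a / b ≤ 2 / (b : ℝ) ^ (w + 1) := by
  have hq1 : (1 : ℝ) ≤ q := by exact_mod_cast hq
  obtain ⟨L, hL⟩ : ∃ L : ℝ, L = len W q := ⟨_, rfl⟩
  rw [← hL] at h2 ⊢
  have hL0 : 0 < L := by rw [hL]; exact len_pos hq
  have hLq : L * (q : ℝ) ^ (W + 1) = 1 := by rw [hL]; exact len_mul hq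
  have hqW : (q : ℝ) ≤ (q : ℝ) ^ (W + 1) := by
    nth_rewrite 1 [← Real.rpow_one (q : ℝ)]
    exact Real.rpow_le_rpow_of_exponent_le hq1 (by linarith)
  have hqW1 : (1 : ℝ) ≤ (q : ℝ) ^ (W + 1) := hq1.trans hqW
  obtain ⟨l, r, hl, hr, hlr, ht⟩ := avoid (l := (p : ℝ) / q + L) (r := (p : ℝ) / q + 2 * L)
    (by linarith) t
  have hlr' : r - l = L / 3 := by rw [hlr]; ring
  have hl1 : 1 ≤ l := by linarith
  have hr2 : r ≤ 2 := by linarith
  -- choose b
  obtain ⟨T, hT1, hTlo, hThi⟩ := exists_pow_between 3 (by norm_num)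
    (y := 72 * (q : ℝ) ^ (W + 1)) (by linarith)
  obtain ⟨b, hb⟩ : ∃ b : ℕ, b = 3 ^ T := ⟨_, rfl⟩
  have hbR : (b : ℝ) = (3 : ℝ) ^ T := by rw [hb]; push_cast; rfl
  have hblo : 72 * (q : ℝ) ^ (W + 1) ≤ b := by rw [hbR]; exact_mod_cast hTlo
  have hbhi : (b : ℝ) ≤ 216 * (q : ℝ) ^ (W + 1) := by
    rw [hbR]
    have : (3 : ℝ) ^ T ≤ 3 * (72 * (q : ℝ) ^ (W + 1)) := by exact_mod_cast hThi
    linarith
  have hb1 : (1 : ℝ) ≤ b := by linarith
  have hb0 : (0 : ℝ) < b := by linarith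
  have hLb : 72 ≤ L * b := by
    calc (72 : ℝ) = L * (72 * (q : ℝ) ^ (W + 1)) := by rw [mul_left_comm, hLq]; ring
      _ ≤ L * b := by gcongr
  -- choose a
  have hlk1 : 1 ≤ l ^ k := one_le_pow₀ hl1
  obtain ⟨a, hamod, halo, hahi⟩ := exists_nat_mod (y := l ^ k * b) (by positivity) 12 2
    (by norm_num) (by norm_num) (by
      have e1 : (72 : ℝ) ≤ b := by linarith
      have e2 : 1 * (b : ℝ) ≤ l ^ k * b := mul_le_mul_of_nonneg_right hlk1 hb0.le
      push_cast; linarith)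
  have ha1 : l ^ k ≤ (a : ℝ) / b := by rwa [le_div_iff₀ hb0]
  have ha2 : (a : ℝ) / b ≤ l ^ k + L / 6 := by
    rw [div_le_iff₀ hb0, add_mul]
    push_cast at hahi
    linarith
  have hbw : 1 / (b : ℝ) ^ (w + 1) ≤ L / 72 := by
    have h3 : (b : ℝ) ≤ (b : ℝ) ^ (w + 1) := le_self_pow₀ hb1 (by omega)
    calc 1 / (b : ℝ) ^ (w + 1) ≤ 1 / b := by gcongr
      _ ≤ L / 72 := by
          rw [div_le_div_iff₀ hb0 (by norm_num)]; linarith
  obtain ⟨E, hE⟩ : ∃ E : ℝ, E = 1 / (b : ℝ) ^ (w + 1) := ⟨_, rfl⟩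
  rw [← hE] at hbw
  have hE0 : 0 < E := by rw [hE]; positivity
  -- the interval in x-space
  have hkne : k ≠ 0 := by omega
  obtain ⟨y₁, hy₁⟩ : ∃ y : ℝ, y = (a : ℝ) / b + E := ⟨_, rfl⟩
  obtain ⟨y₂, hy₂⟩ : ∃ y : ℝ, y = (a : ℝ) / b + 2 * E := ⟨_, rfl⟩
  have hy₁0 : 0 ≤ y₁ := by rw [hy₁]; positivity
  have hy₂0 : 0 ≤ y₂ := by rw [hy₂]; positivity
  obtain ⟨l₂, hl₂0, hl₂k⟩ : ∃ l₂ : ℝ, 0 ≤ l₂ ∧ l₂ ^ k = y₁ :=
    ⟨y₁ ^ ((k : ℝ)⁻¹), by positivity, Real.rpow_inv_natCast_pow hy₁0 hkne⟩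
  obtain ⟨r₂, hr₂0, hr₂k⟩ : ∃ r₂ : ℝ, 0 ≤ r₂ ∧ r₂ ^ k = y₂ :=
    ⟨y₂ ^ ((k : ℝ)⁻¹), by positivity, Real.rpow_inv_natCast_pow hy₂0 hkne⟩
  have hrk : r ^ k ≥ l ^ k + L / 3 := by
    have := sub_le_pow_sub_pow hl1 (by linarith : l ≤ r) hk
    linarith
  have hll₂ : l ≤ l₂ := by
    rw [← pow_le_pow_iff_left₀ (by linarith) hl₂0 hkne, hl₂k]; linarith
  have hr₂r : r₂ ≤ r := by
    rw [← pow_le_pow_iff_left₀ hr₂0 (by linarith) hkne, hr₂k]; linarith
  have hlr₂ : l₂ ≤ r₂ := by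
    rw [← pow_le_pow_iff_left₀ hl₂0 hr₂0 hkne, hl₂k, hr₂k]; linarith
  have hk0 : (0 : ℝ) < k := by exact_mod_cast (by omega : 0 < k)
  have hk1 : (1 : ℝ) ≤ k := by exact_mod_cast hk
  obtain ⟨F, hF⟩ : ∃ F : ℝ, F = k * 2 ^ k := ⟨_, rfl⟩
  have hF0 : 0 < F := by rw [hF]; positivity
  have hF1 : 1 ≤ F := by
    have : (1 : ℝ) ≤ 2 ^ k := one_le_pow₀ (by norm_num)
    rw [hF]; nlinarith
  have hlen₂ : E ≤ F * (r₂ - l₂) := by
    have := pow_sub_pow_le hl₂0 hlr₂ (hr₂r.trans hr2) k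
    rw [hl₂k, hr₂k, ← hF] at this
    linarith
  -- choose q'
  have hEb : E * (b : ℝ) ^ (w + 1) = 1 := by rw [hE]; field_simp
  have hbw1 : (1 : ℝ) ≤ (b : ℝ) ^ (w + 1) := one_le_pow₀ hb1
  have hFb : (b : ℝ) ^ (w + 1) ≤ F * (b : ℝ) ^ (w + 1) := le_mul_of_one_le_left (by linarith) hF1
  have hy4 : 1 ≤ 4 * F * (b : ℝ) ^ (w + 1) := by
    rw [mul_assoc]; linarith
  obtain ⟨S, hS1, hSlo, hShi⟩ := exists_pow_between 2 le_rfl (y := 4 * F * (b : ℝ) ^ (w + 1)) hy4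
  obtain ⟨q', hq'⟩ : ∃ q' : ℕ, q' = 2 ^ S := ⟨_, rfl⟩
  have hq'R : (q' : ℝ) = (2 : ℝ) ^ S := by rw [hq']; push_cast; rfl
  have hq'lo : 4 * F * (b : ℝ) ^ (w + 1) ≤ q' := by rw [hq'R]; exact_mod_cast hSlo
  have hq'hi : (q' : ℝ) ≤ (8 * k * 2 ^ k) * (b : ℝ) ^ (w + 1) := by
    rw [hq'R]
    have : (2 : ℝ) ^ S ≤ 2 * (4 * F * (b : ℝ) ^ (w + 1)) := by exact_mod_cast hShi
    rw [hF] at this
    linarith
  have hq'1 : (1 : ℝ) ≤ q' := hy4.trans hq'lo
  have hq'0 : (0 : ℝ) < q' := by linarith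
  have hgap : 4 ≤ (r₂ - l₂) * q' := by
    have h5 : 4 * F ≤ F * ((r₂ - l₂) * q') := by
      calc 4 * F = E * (4 * F * (b : ℝ) ^ (w + 1)) := by
            linear_combination (-(4 * F)) * hEb
        _ ≤ E * q' := by gcongr
        _ ≤ (F * (r₂ - l₂)) * q' := by gcongr
        _ = _ := by ring
    have h6 : F * 4 ≤ F * ((r₂ - l₂) * q') := by linarith
    exact le_of_mul_le_mul_left h6 hF0
  -- choose p'
  obtain ⟨p', hpmod, hplo, hphi⟩ := exists_nat_mod (y := l₂ * q') (by positivity) 2 1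
    (by norm_num) (by norm_num) (by
      have e2 : 1 * (q' : ℝ) ≤ l₂ * q' := mul_le_mul_of_nonneg_right (hl1.trans hll₂) hq'0.le
      push_cast; linarith)
  have hp1 : l₂ ≤ (p' : ℝ) / q' := by rwa [le_div_iff₀ hq'0]
  have hp2 : (p' : ℝ) / q' ≤ l₂ + 2 / q' := by
    rw [div_le_iff₀ hq'0, add_mul, div_mul_cancel₀ _ hq'0.ne']
    exact_mod_cast hphi
  have hq'N : 1 ≤ q' := by exact_mod_cast hq'1
  have hlenq' : len W q' ≤ 1 / q' := len_le hW hq'N
  have hp3 : (p' : ℝ) / q' + 2 * len W q' ≤ r₂ := by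
    have h7 : 4 / (q' : ℝ) ≤ r₂ - l₂ := by rwa [div_le_iff₀ hq'0]
    have h8 : 2 * (1 / (q' : ℝ)) = 2 / q' := by ring
    have h9 : 2 / (q' : ℝ) + 2 / q' = 4 / q' := by ring
    linarith
  refine ⟨a, b, p', q', ⟨?_, ?_, ?_, ?_, ?_, hbhi⟩, ⟨?_, ?_, hq'hi, ?_, ?_⟩, ?_⟩
  · rw [hb]
    apply Nat.Coprime.pow_left
    rw [Nat.Prime.coprime_iff_not_dvd Nat.prime_three]
    omega
  · rw [hb]
    intro h
    have := Nat.prime_two.dvd_of_dvd_pow h
    omega
  · omega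
  · omega
  · have : (q : ℝ) ≤ b := by linarith
    exact_mod_cast this
  · rw [hq']
    apply Nat.Coprime.pow_left
    rw [Nat.Prime.coprime_iff_not_dvd Nat.prime_two]
    omega
  · have h3 : (b : ℝ) ≤ (b : ℝ) ^ (w + 1) := le_self_pow₀ hb1 (by omega)
    have : (b : ℝ) < q' := by rw [mul_assoc] at hq'lo; linarith
    exact_mod_cast this
  · linarith
  · linarith
  · intro x hx1 hx2
    have hxl : l₂ ≤ x := by
      have := len_pos (W := W) hq'N
      linarith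
    have hxr : x ≤ r₂ := hx2.trans hp3
    have hx0 : 0 ≤ x := hl₂0.trans hxl
    refine ⟨⟨by linarith, by linarith⟩, ht x (hll₂.trans hxl) (hxr.trans hr₂r), ?_, ?_⟩
    · have : l₂ ^ k ≤ x ^ k := by gcongr
      rw [hl₂k] at this
      linarith
    · have : x ^ k ≤ r₂ ^ k := by gcongr
      rw [hr₂k] at this
      have e : 2 / (b : ℝ) ^ (w + 1) = 2 * E := by rw [hE]; ring
      linarith

lemma construction {W : ℝ} (hW : 0 ≤ W) (w K : ℕ) {k : ℕ} (hk : 1 ≤ k) :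
    ∃ ξ : ℝ, Transcendental ℤ ξ ∧ 1 ≤ ξ ∧ ξ ≤ 2 ∧ ∃ p q a b : ℕ → ℕ, ∀ j,
      (K ≤ q j ∧ 1 ≤ q j ∧ Nat.Coprime (q j) (p j) ∧ 1 ≤ (p j : ℝ) / q j ∧ (p j : ℝ) / q j ≤ 2 ∧
        len W (q j) ≤ ξ - p j / q j ∧ ξ - p j / q j ≤ 2 * len W (q j)) ∧
      (Nat.Coprime (b j) (a j) ∧ ¬ 2 ∣ b j ∧ 2 ∣ a j ∧ ¬ 4 ∣ a j ∧ q j ≤ b j ∧
        (b j : ℝ) ≤ 216 * (q j : ℝ) ^ (W + 1) ∧
        1 / (b j : ℝ) ^ (w + 1) ≤ ξ ^ k - a j / b j ∧
        ξ ^ k - a j / b j ≤ 2 / (b j : ℝ) ^ (w + 1)) ∧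
      b j < q (j + 1) ∧ (q (j + 1) : ℝ) ≤ (8 * k * 2 ^ k) * (b j : ℝ) ^ (w + 1) := by
  -- enumeration of the algebraic reals
  obtain ⟨t, ht⟩ : ∃ t : ℕ → ℝ, {x : ℝ | IsAlgebraic ℤ x} = Set.range t := by
    have hc : Set.Countable {x : ℝ | IsAlgebraic ℤ x} := Algebraic.countable ℤ ℝ
    exact hc.exists_eq_range ⟨0, isAlgebraic_zero⟩
  -- states
  let Good : ℕ × ℕ → Prop := fun s => 1 ≤ s.2 ∧ K ≤ s.2 ∧ Nat.Coprime s.2 s.1 ∧
    1 ≤ (s.1 : ℝ) / s.2 ∧ (s.1 : ℝ) / s.2 + 2 * len W s.2 ≤ 2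
  let Rel : ℕ → ℕ × ℕ → ℕ × ℕ → Prop := fun j s s' => ∃ a b : ℕ,
    (Nat.Coprime b a ∧ ¬ 2 ∣ b ∧ 2 ∣ a ∧ ¬ 4 ∣ a ∧ s.2 ≤ b ∧ 
      (b : ℝ) ≤ 216 * (s.2 : ℝ) ^ (W + 1)) ∧
      (b < s'.2 ∧ (s'.2 : ℝ) ≤ (8 * k * 2 ^ k) * (b : ℝ) ^ (w + 1)) ∧
      ∀ x : ℝ, (s'.1 : ℝ) / s'.2 + len W s'.2 ≤ x → x ≤ (s'.1 : ℝ) / s'.2 + 2 * len W s'.2 →
        ((s.1 : ℝ) / s.2 + len W s.2 ≤ x ∧ x ≤ (s.1 : ℝ) / s.2 + 2 * len W s.2) ∧ x ≠ t j ∧
        1 / (b : ℝ) ^ (w + 1) ≤ x ^ k - a / b ∧ x ^ k - a / b ≤ 2 / (b : ℝ) ^ (w + 1)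
  have hstep : ∀ (j : ℕ) (s : {s : ℕ × ℕ // Good s}), ∃ s' : {s : ℕ × ℕ // Good s}, Rel j s.1 s'.1 := by
    rintro j ⟨⟨p, q⟩, hq1, hK, hco, h1, h2⟩
    obtain ⟨a, b, p', q', hb, ⟨hco', hbq', hq'hi, h1', h2'⟩, hx⟩ := step hW w hk hq1 h1 h2 (t j)
    refine ⟨⟨(p', q'), ?_, ?_, hco', h1', h2'⟩, a, b, hb, ⟨hbq', hq'hi⟩, hx⟩
    · show 1 ≤ q'
      omega
    · show K ≤ q'
      have h3 : q ≤ b := hb.2.2.2.2.1
      have h4 : K ≤ q := hK
      omega
  choose g hg using hstep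
  have h0 : Good (K + 4 + 1, K + 4) := by
    refine ⟨by simp, by simp, by simp, ?_, ?_⟩
    · show 1 ≤ ((K + 4 + 1 : ℕ) : ℝ) / ((K + 4 : ℕ) : ℝ)
      rw [le_div_iff₀ (by positivity)]; push_cast; linarith
    · show ((K + 4 + 1 : ℕ) : ℝ) / ((K + 4 : ℕ) : ℝ) + 2 * len W (K + 4) ≤ 2
      have h5 := len_le hW (q := K + 4) (by omega)
      have h6 : ((K + 4 + 1 : ℕ) : ℝ) / ((K + 4 : ℕ) : ℝ) = 1 + 1 / ((K + 4 : ℕ) : ℝ) := by
        have : ((K + 4 : ℕ) : ℝ) ≠ 0 := by positivity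
        field_simp; push_cast; ring
      have h7 : 1 / ((K + 4 : ℕ) : ℝ) ≤ 1 / 4 := by
        apply one_div_le_one_div_of_le (by norm_num); push_cast; linarith [Nat.cast_nonneg (α := ℝ) K]
      rw [h6]
      linarith
  let S : ℕ → {s : ℕ × ℕ // Good s} := fun n => Nat.rec ⟨_, h0⟩ (fun j s => g j s) n
  have hS : ∀ j, Rel j (S j).1 (S (j + 1)).1 := fun j => hg j (S j)
  choose a b hab hbq hx using hS
  let l : ℕ → ℝ := fun j => ((S j).1.1 : ℝ) / (S j).1.2 + len W (S j).1.2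
  let r : ℕ → ℝ := fun j => ((S j).1.1 : ℝ) / (S j).1.2 + 2 * len W (S j).1.2
  have hlr : ∀ j, l j ≤ r j := fun j => by
    have := len_pos (W := W) (S j).2.1
    show _ + _ ≤ _ + _
    linarith
  have hanti : Antitone (fun j => Set.Icc (l j) (r j)) := by
    refine antitone_nat_of_succ_le fun j x hx' => ?_
    exact (hx j x hx'.1 hx'.2).1
  have hmem := ciSup_mem_iInter_Icc_of_antitone_Icc hanti hlr
  rw [Set.mem_iInter] at hmem
  obtain ⟨ξ, hξ⟩ : ∃ ξ : ℝ, ξ = ⨆ n, l n := ⟨_, rfl⟩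
  rw [← hξ] at hmem
  have hl : ∀ j, l j ≤ ξ := fun j => (hmem j).1
  have hr : ∀ j, ξ ≤ r j := fun j => (hmem j).2
  refine ⟨ξ, ?_, ?_, ?_, fun j => (S j).1.1, fun j => (S j).1.2, a, b, ?_⟩
  · intro halg
    have : ξ ∈ Set.range t := by rw [← ht]; exact halg
    obtain ⟨j, hj⟩ := this
    exact (hx j ξ (hl (j + 1)) (hr (j + 1))).2.1 hj.symm
  · have h1 := hl 0
    have h2 := (S 0).2.2.2.2.1
    have h3 := len_pos (W := W) (S 0).2.1
    have h4 : l 0 = ((S 0).1.1 : ℝ) / (S 0).1.2 + len W (S 0).1.2 := rfl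
    linarith
  · have h1 := hr 0
    have h2 := (S 0).2.2.2.2.2
    have h4 : r 0 = ((S 0).1.1 : ℝ) / (S 0).1.2 + 2 * len W (S 0).1.2 := rfl
    linarith
  · intro j
    have hlj := hl j
    have hrj := hr j
    have h4 : l j = ((S j).1.1 : ℝ) / (S j).1.2 + len W (S j).1.2 := rfl
    have h5 : r j = ((S j).1.1 : ℝ) / (S j).1.2 + 2 * len W (S j).1.2 := rfl
    have hgood := (S j).2
    have h6 := len_pos (W := W) hgood.1
    refine ⟨⟨hgood.2.1, hgood.1, hgood.2.2.1, hgood.2.2.2.1, ?_, ?_, ?_⟩, ?_, hbq j⟩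
    · have := hgood.2.2.2.2
      linarith
    · linarith
    · linarith
    · obtain ⟨e1, e2, e3, e4, e5, e6⟩ := hab j
      obtain ⟨_, _, f1, f2⟩ := hx j ξ (hl (j + 1)) (hr (j + 1))
      exact ⟨e1, e2, e3, e4, e5, e6, f1, f2⟩

lemma sub_le_pow_sub_pow' {x y : ℝ} (hx : 0 ≤ x) (hxy : x ≤ y) (hy : 1 ≤ y) {k : ℕ}
    (hk : 1 ≤ k) : y - x ≤ y ^ k - x ^ k := by
  obtain ⟨j, rfl⟩ : ∃ j, k = j + 1 := ⟨k - 1, by omega⟩
  have h1 : x ^ j ≤ y ^ j := by gcongr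
  have h2 : 1 ≤ y ^ j := one_le_pow₀ hy
  have h3 : 0 ≤ y - x := by linarith
  calc y - x ≤ y ^ j * (y - x) := le_mul_of_one_le_left h3 h2
    _ = y ^ (j + 1) - y ^ j * x := by ring
    _ ≤ y ^ (j + 1) - x ^ j * x := by gcongr
    _ = _ := by ring

lemma lipschitz_real {B : ℝ} (hB : 1 ≤ B) {m : ℕ} {P : ℤ[X]} (hP : P.natDegree ≤ m) {x y : ℝ}
    (hx : |x| ≤ B) (hy : |y| ≤ B) :
    |aeval x P - aeval y P| ≤ lipC B m * ht P * |x - y| := by
  have h := lipschitz_bound hB hP (x := (x : ℂ)) (y := (y : ℂ))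
    (by rwa [Complex.norm_real, Real.norm_eq_abs]) (by rwa [Complex.norm_real, Real.norm_eq_abs])
  rw [aeval_ofReal, aeval_ofReal, ← Complex.ofReal_sub, ← Complex.ofReal_sub, Complex.norm_real,
    Complex.norm_real, Real.norm_eq_abs, Real.norm_eq_abs] at h
  exact h

lemma lipC_nonneg {B : ℝ} (hB : 0 ≤ B) (m : ℕ) : 0 ≤ lipC B m := by
  unfold lipC; positivity

/-- From a good lower bound at a nearby point `r` to a lower bound at `x`. -/
lemma transfer {B : ℝ} (hB : 1 ≤ B) {m : ℕ} {P : ℤ[X]} (hP : P.natDegree ≤ m) {x r : ℝ}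
    (hx : |x| ≤ B) (hr : |r| ≤ B) {T ε : ℝ} (hT : 0 < T) (hε : |x - r| ≤ ε)
    (h1 : 1 ≤ T * |aeval r P|) (h2 : 2 * T * (lipC B m * ht P) * ε ≤ 1) :
    1 / (2 * T) ≤ |aeval x P| := by
  have h3 := lipschitz_real hB hP hx hr
  have h4 : 1 / T ≤ |aeval r P| := by
    rw [div_le_iff₀ hT]; linarith
  have h5 : lipC B m * ht P * |x - r| ≤ 1 / (2 * T) := by
    rw [le_div_iff₀ (by positivity)]
    have : lipC B m * ht P * |x - r| ≤ lipC B m * ht P * ε := by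
      have := lipC_nonneg (zero_le_one.trans hB) m
      gcongr
    calc lipC B m * ht P * |x - r| * (2 * T) ≤ lipC B m * ht P * ε * (2 * T) := by gcongr
      _ = 2 * T * (lipC B m * ht P) * ε := by ring
      _ ≤ 1 := h2
  have h6 : |aeval r P| - |aeval x P| ≤ |aeval x P - aeval r P| := by
    rw [abs_sub_comm]; exact abs_sub_abs_le_abs_sub _ _
  have h7 : 1 / T = 1 / (2 * T) + 1 / (2 * T) := by field_simp; norm_num
  linarith

/-- The factor case. -/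
lemma factor_case {P : ℤ[X]} (hP0 : P ≠ 0) {m : ℕ} (hP : P.natDegree ≤ m) {u v d : ℕ}
    (hu : 0 < u) (hd : 0 < d) (hirr : Irreducible (binom u v d)) {r : ℝ}
    (hr : (u : ℝ) * r ^ d = v) (hroot : aeval r P = 0) {B : ℝ} (hB : 0 ≤ B)
    (hv : (v : ℝ) ≤ B * u) :
    ∃ R : ℤ[X], P = binom u v d * R ∧ R.natDegree < P.natDegree ∧
      (u : ℝ) * ht R ≤ (∑ s ∈ Finset.range (m + 1), B ^ s) * ht P := by
  have hd' : (binom u v d).natDegree ≠ 0 := by rw [natDegree_binom hu hd]; omega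
  obtain ⟨R, hR⟩ := dvd_of_root_real hirr hd' (α := r) (by rw [aeval_binom, hr, sub_self]) hroot
  have hR0 : R ≠ 0 := by rintro rfl; rw [mul_zero] at hR; exact hP0 hR
  have hdeg : P.natDegree = d + R.natDegree := by
    rw [hR, natDegree_mul hirr.ne_zero hR0, natDegree_binom hu hd]
  refine ⟨R, hR, by omega, ?_⟩
  rw [mul_comm (∑ s ∈ Finset.range (m + 1), B ^ s)]
  refine cofactor_bound hd hB (v := (v : ℤ)) ?_ hR (by omega)
  rw [Int.cast_natCast, Nat.abs_cast]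
  exact hv

/-- A real power with nonpositive exponent against a natural power bound. -/
lemma rpow_neg_le_of_pow_le {H : ℕ} (hH : 1 ≤ H) {W : ℝ} {e : ℕ} (heW : (e : ℝ) ≤ W) {Y : ℝ}
    (hY : 0 < Y) (h : Y ≤ (H : ℝ) ^ e) : (H : ℝ) ^ (-W) ≤ 1 / Y := by
  have hH1 : (1 : ℝ) ≤ H := by exact_mod_cast hH
  have hH0 : (0 : ℝ) < H := by linarith
  rw [Real.rpow_neg hH0.le, ← one_div]
  apply one_div_le_one_div_of_le hY
  calc Y ≤ (H : ℝ) ^ e := h
    _ = (H : ℝ) ^ (e : ℝ) := (Real.rpow_natCast _ _).symm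
    _ ≤ (H : ℝ) ^ W := Real.rpow_le_rpow_of_exponent_le hH1 heW


/-- Data of the construction, for fixed parameters. -/
structure Data (ξ : ℝ) (W : ℝ) (w k : ℕ) (p q a b : ℕ → ℕ) : Prop where
  hξ1 : 1 ≤ ξ
  hξ2 : ξ ≤ 2
  q1 : ∀ j, 1 ≤ q j
  coA : ∀ j, Nat.Coprime (q j) (p j)
  rA1 : ∀ j, 1 ≤ (p j : ℝ) / q j
  rA2 : ∀ j, (p j : ℝ) / q j ≤ 2
  lo : ∀ j, len W (q j) ≤ ξ - p j / q j
  hi : ∀ j, ξ - p j / q j ≤ 2 * len W (q j)
  coB : ∀ j, Nat.Coprime (b j) (a j)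
  b2 : ∀ j, ¬ 2 ∣ b j
  a2 : ∀ j, 2 ∣ a j
  a4 : ∀ j, ¬ 4 ∣ a j
  qb : ∀ j, q j ≤ b j
  loB : ∀ j, 1 / (b j : ℝ) ^ (w + 1) ≤ ξ ^ k - a j / b j
  hiB : ∀ j, ξ ^ k - a j / b j ≤ 2 / (b j : ℝ) ^ (w + 1)

/-- Covering property used for the lower bounds. -/
def Covers (W DA DB : ℝ) (w k m : ℕ) (q b : ℕ → ℕ) : Prop :=
  ∀ H : ℕ, 1 ≤ H →
    ∃ j, (DA * H * (q j : ℝ) ^ m ≤ (q j : ℝ) ^ (W + 1) ∧ (j = 0 ∨ q j ≤ H ^ (2 * k))) ∨
      (DB * (H : ℝ) ^ k * (b j : ℝ) ^ (m * k) ≤ (b j : ℝ) ^ (w + 1) ∧ b j ≤ H ^ 2)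

lemma xi_lower {ξ W DA DB : ℝ} {w k m : ℕ} {p q a b : ℕ → ℕ} (hk : 1 ≤ k)
    (D : Data ξ W w k p q a b) (hC : Covers W DA DB w k m q b)
    (hDA : 4 * lipC 2 m ≤ DA) (hDB : 4 * lipC 2 m * ((m + 1) * 2 ^ m) ^ (k - 1) ≤ DB)
    (hwW : (w : ℝ) ≤ W) (hmw : 2 * m * k + k ≤ w) :
    ∃ c : ℝ, 0 < c ∧ ∀ P : ℤ[X], P ≠ 0 → P.natDegree ≤ m →
      c * (ht P : ℝ) ^ (-W) ≤ |aeval ξ P| := by
  have hW0 : 0 ≤ W := (Nat.cast_nonneg w).trans hwW
  obtain ⟨E, hE⟩ : ∃ E : ℝ, E = ((m + 1) * 2 ^ m) ^ (k - 1) := ⟨_, rfl⟩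
  have hE1 : 1 ≤ E := by
    rw [hE]
    apply one_le_pow₀
    have h1 : (1 : ℝ) ≤ 2 ^ m := one_le_pow₀ (by norm_num)
    have h2 : (1 : ℝ) ≤ (m : ℝ) + 1 := by linarith [Nat.cast_nonneg (α := ℝ) m]
    exact one_le_mul_of_one_le_of_one_le h2 h1
  have hE0 : 0 < E := by linarith
  rw [← hE] at hDB
  have hξ1 := D.hξ1
  have hξ2 := D.hξ2
  have hξabs : |ξ| ≤ 2 := by rw [abs_of_pos (by linarith)]; exact hξ2
  have hq0 : (0 : ℝ) < q 0 := by exact_mod_cast D.q1 0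
  have hq01 : (1 : ℝ) ≤ (q 0 : ℝ) ^ m := one_le_pow₀ (by exact_mod_cast D.q1 0)
  have hlip := lipC_nonneg (B := 2) (by norm_num) m
  set c : ℝ := 1 / (2 * ((q 0 : ℝ) ^ m * E)) with hc
  have hc0 : 0 < c := by positivity
  have hcq : c ≤ 1 / (2 * (q 0 : ℝ) ^ m) := by
    apply one_div_le_one_div_of_le (by positivity)
    have : (q 0 : ℝ) ^ m ≤ (q 0 : ℝ) ^ m * E := le_mul_of_one_le_right (by positivity) hE1
    linarith
  have hcE : c ≤ 1 / (2 * E) := by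
    apply one_div_le_one_div_of_le (by positivity)
    have : E ≤ (q 0 : ℝ) ^ m * E := le_mul_of_one_le_left hE0.le hq01
    linarith
  have hc2 : c ≤ 1 / 2 := by
    refine hcE.trans ?_
    apply one_div_le_one_div_of_le (by norm_num); linarith
  have hc1 : c ≤ 1 := by linarith
  set DD : ℝ := ∑ s ∈ Finset.range (m + 1), ((2 : ℝ) ^ k) ^ s with hDD
  have hDD0 : 0 < DD := by
    rw [hDD]; exact Finset.sum_pos (fun s _ => by positivity) ⟨0, by simp⟩
  refine lower_of_dichotomy hW0 hc0 hDD0 fun P hP0 hP => ?_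
  have hH := one_le_ht hP0
  obtain ⟨j, hj⟩ := hC (ht P) hH
  have hH1 : (1 : ℝ) ≤ ht P := by exact_mod_cast hH
  have hH0 : (0 : ℝ) < ht P := by linarith
  have hHW1 : (ht P : ℝ) ^ (-W) ≤ 1 := Real.rpow_le_one_of_one_le_of_nonpos hH1 (by linarith)
  have hHW0 : 0 < (ht P : ℝ) ^ (-W) := by positivity
  have h2k1 : (1 : ℝ) ≤ 2 ^ k := one_le_pow₀ (by norm_num)
  have h2k2 : (2 : ℝ) ≤ 2 ^ k := le_self_pow₀ (by norm_num) (by omega)
  rcases hj with ⟨hA, hj⟩ | ⟨hB, hj⟩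
  · -- type A
    have hq := D.q1 j
    have hqR : (0 : ℝ) < q j := by exact_mod_cast hq
    have hlen := len_pos (W := W) hq
    have hlenm := len_mul (W := W) hq
    have hlo := D.lo j
    have hhi := D.hi j
    by_cases hroot : aeval ((p j : ℝ) / q j) P = 0
    · right
      obtain ⟨R, h1, h2, h3⟩ := factor_case hP0 hP (u := q j) (v := p j) (d := 1) hq one_pos
        (irreducible_linear hq (D.coA j)) (r := (p j : ℝ) / q j) (by rw [pow_one]; field_simp)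
        hroot (B := 2 ^ k) (by positivity) (by
          have := D.rA2 j
          rw [div_le_iff₀ hqR] at this
          nlinarith)
      refine ⟨_, R, (q j : ℝ), hqR, h1, h2, ?_, h3⟩
      rw [aeval_binom, pow_one]
      have e1 : (q j : ℝ) * ξ - p j = q j * (ξ - p j / q j) := by field_simp
      have e2 : (q j : ℝ) ^ (-W) = q j * len W (q j) := by
        unfold len
        rw [neg_add, ← sub_eq_add_neg, Real.rpow_sub_one hqR.ne']; field_simp
      rw [e1, abs_of_nonneg (by apply mul_nonneg hqR.le; linarith), e2]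
      calc c * (q j * len W (q j)) ≤ 1 * (q j * len W (q j)) := by gcongr
        _ ≤ q j * (ξ - p j / q j) := by rw [one_mul]; gcongr
    · left
      have h1 : 1 ≤ (q j : ℝ) ^ m * |aeval ((p j : ℝ) / q j) P| := by
        have := rational_lower hP (p := (p j : ℤ)) hq (by simpa using hroot)
        simpa using this
      have h2 := transfer (B := 2) (by norm_num) hP hξabs
        (r := (p j : ℝ) / q j) (by rw [abs_of_pos (by linarith [D.rA1 j])]; exact D.rA2 j)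
        (T := (q j : ℝ) ^ m) (ε := 2 * len W (q j)) (by positivity)
        (by rw [abs_of_nonneg (by linarith)]; exact hhi) h1 (by
          calc 2 * (q j : ℝ) ^ m * (lipC 2 m * ht P) * (2 * len W (q j))
              = (4 * lipC 2 m) * ht P * (q j : ℝ) ^ m * len W (q j) := by ring
            _ ≤ DA * ht P * (q j : ℝ) ^ m * len W (q j) := by gcongr
            _ ≤ (q j : ℝ) ^ (W + 1) * len W (q j) := by gcongr
            _ = 1 := by rw [mul_comm]; exact hlenm)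
      refine le_trans ?_ h2
      rcases hj with rfl | hj
      · calc c * (ht P : ℝ) ^ (-W) ≤ c * 1 := by gcongr
          _ ≤ _ := by rw [mul_one]; exact hcq
      · have h3 : (ht P : ℝ) ^ (-W) ≤ 1 / (q j : ℝ) ^ m := by
          refine rpow_neg_le_of_pow_le hH (e := 2 * k * m) ?_ (by positivity) ?_
          · refine le_trans ?_ hwW
            have : 2 * k * m ≤ w := by nlinarith
            exact_mod_cast this
          · have : (q j : ℝ) ≤ (ht P : ℝ) ^ (2 * k) := by exact_mod_cast hj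
            calc (q j : ℝ) ^ m ≤ ((ht P : ℝ) ^ (2 * k)) ^ m := by gcongr
              _ = _ := by rw [← pow_mul]
        calc c * (ht P : ℝ) ^ (-W) ≤ (1 / 2) * (1 / (q j : ℝ) ^ m) := by gcongr
          _ = _ := by rw [one_div_mul_one_div]
  · -- type B
    have hb : 1 ≤ b j := (D.q1 j).trans (D.qb j)
    have hbR : (0 : ℝ) < b j := by exact_mod_cast hb
    have hbR1 : (1 : ℝ) ≤ b j := by exact_mod_cast hb
    have hloB := D.loB j
    have hhiB := D.hiB j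
    have hab0 : (0 : ℝ) ≤ (a j : ℝ) / b j := by positivity
    have hkne : k ≠ 0 := by omega
    obtain ⟨α, hα0, hαk⟩ : ∃ α : ℝ, 0 ≤ α ∧ α ^ k = (a j : ℝ) / b j :=
      ⟨((a j : ℝ) / b j) ^ ((k : ℝ)⁻¹), by positivity, Real.rpow_inv_natCast_pow hab0 hkne⟩
    have hbα : (b j : ℝ) * α ^ k = a j := by rw [hαk]; field_simp
    have hpos : 0 < 1 / (b j : ℝ) ^ (w + 1) := by positivity
    have hαξ : α ≤ ξ := by
      rw [← pow_le_pow_iff_left₀ hα0 (by linarith) hkne, hαk]; linarith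
    have hα2 : α ≤ 2 := hαξ.trans hξ2
    have hdist : |ξ - α| ≤ 2 / (b j : ℝ) ^ (w + 1) := by
      rw [abs_of_nonneg (by linarith)]
      have := sub_le_pow_sub_pow' hα0 hαξ hξ1 hk
      rw [hαk] at this
      linarith
    by_cases hroot : aeval α P = 0
    · right
      obtain ⟨R, h1, h2, h3⟩ := factor_case hP0 hP (u := b j) (v := a j) (d := k) hb (by omega)
        (irreducible_binom hb (by omega) (D.coB j) (D.b2 j) (D.a2 j) (D.a4 j)) (r := α) hbα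
        hroot (B := 2 ^ k) (by positivity) (by
          rw [← hbα, mul_comm]
          gcongr)
      refine ⟨_, R, (b j : ℝ), hbR, h1, h2, ?_, h3⟩
      rw [aeval_binom]
      have e1 : (b j : ℝ) * ξ ^ k - a j = b j * (ξ ^ k - a j / b j) := by field_simp
      rw [e1, abs_of_nonneg (by apply mul_nonneg hbR.le; linarith)]
      calc c * (b j : ℝ) ^ (-W) ≤ 1 * (b j : ℝ) ^ (-(w : ℝ)) := by
            gcongr
        _ = b j * (1 / (b j : ℝ) ^ (w + 1)) := by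
            rw [one_mul, Real.rpow_neg hbR.le, Real.rpow_natCast, pow_succ]; field_simp
        _ ≤ b j * (ξ ^ k - a j / b j) := by gcongr
    · left
      have h1 := norm_lower (B := 2) (by norm_num) (by omega : 0 < k) hP hb hα0 hα2 hbα hroot
      have hT : ((b j : ℝ) ^ m) ^ k * ((m + 1) * 2 ^ m * ht P) ^ (k - 1) =
          (b j : ℝ) ^ (m * k) * E * (ht P : ℝ) ^ (k - 1) := by
        rw [← pow_mul, hE, mul_pow]; ring
      rw [hT] at h1
      have hHk : (ht P : ℝ) ^ (k - 1) * ht P = (ht P : ℝ) ^ k := by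
        rw [← pow_succ]; congr 1; omega
      have h2 := transfer (B := 2) (by norm_num) hP hξabs
        (r := α) (by rw [abs_of_nonneg hα0]; exact hα2)
        (T := (b j : ℝ) ^ (m * k) * E * (ht P : ℝ) ^ (k - 1)) (ε := 2 / (b j : ℝ) ^ (w + 1))
        (by positivity) hdist h1 (by
          calc 2 * ((b j : ℝ) ^ (m * k) * E * (ht P : ℝ) ^ (k - 1)) * (lipC 2 m * ht P) *
                (2 / (b j : ℝ) ^ (w + 1))
              = (4 * lipC 2 m * E) * ((ht P : ℝ) ^ (k - 1) * ht P) * (b j : ℝ) ^ (m * k) *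
                (1 / (b j : ℝ) ^ (w + 1)) := by ring
            _ ≤ DB * (ht P : ℝ) ^ k * (b j : ℝ) ^ (m * k) * (1 / (b j : ℝ) ^ (w + 1)) := by
                rw [hHk]; gcongr
            _ ≤ (b j : ℝ) ^ (w + 1) * (1 / (b j : ℝ) ^ (w + 1)) := by gcongr
            _ = 1 := by field_simp)
      refine le_trans ?_ h2
      have h3 : (ht P : ℝ) ^ (-W) ≤ 1 / ((b j : ℝ) ^ (m * k) * (ht P : ℝ) ^ (k - 1)) := by
        refine rpow_neg_le_of_pow_le hH (e := 2 * (m * k) + (k - 1)) ?_ (by positivity) ?_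
        · refine le_trans ?_ hwW
          have : 2 * (m * k) + (k - 1) ≤ w := by
            have : 2 * (m * k) = 2 * m * k := by ring
            omega
          exact_mod_cast this
        · have : (b j : ℝ) ≤ (ht P : ℝ) ^ 2 := by exact_mod_cast hj
          calc (b j : ℝ) ^ (m * k) * (ht P : ℝ) ^ (k - 1)
              ≤ ((ht P : ℝ) ^ 2) ^ (m * k) * (ht P : ℝ) ^ (k - 1) := by gcongr
            _ = _ := by rw [← pow_mul, ← pow_add]
      calc c * (ht P : ℝ) ^ (-W)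
          ≤ 1 / (2 * E) * (1 / ((b j : ℝ) ^ (m * k) * (ht P : ℝ) ^ (k - 1))) := by gcongr
        _ = 1 / (2 * ((b j : ℝ) ^ (m * k) * E * (ht P : ℝ) ^ (k - 1))) := by
            rw [one_div_mul_one_div]; ring_nf

lemma eta_lower {ξ W DA DB : ℝ} {w k n : ℕ} {p q a b : ℕ → ℕ} (hk : 1 ≤ k)
    (D : Data ξ W w k p q a b) (hC : Covers W DA DB w k (k * n) q b)
    (hDA : lipC (2 ^ k) n * k * 2 ^ (k + 2) ≤ DA) (hDB : 4 * lipC (2 ^ k) n ≤ DB)
    (hwW : (w : ℝ) ≤ W) (hmw : 2 * (k * n) * k + k ≤ w) (hWk : W + 1 ≤ k * (w + 1)) :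
    ∃ c : ℝ, 0 < c ∧ ∀ P : ℤ[X], P ≠ 0 → P.natDegree ≤ n →
      c * (ht P : ℝ) ^ (-(w : ℝ)) ≤ |aeval (ξ ^ k) P| := by
  have hW0 : 0 ≤ W := (Nat.cast_nonneg w).trans hwW
  have hw0 : (0 : ℝ) ≤ w := Nat.cast_nonneg w
  have hξ1 := D.hξ1
  have hξ2 := D.hξ2
  have h2k1 : (1 : ℝ) ≤ 2 ^ k := one_le_pow₀ (by norm_num)
  have hη1 : 1 ≤ ξ ^ k := one_le_pow₀ hξ1
  have hη2 : ξ ^ k ≤ 2 ^ k := by gcongr
  have hηabs : |ξ ^ k| ≤ 2 ^ k := by rw [abs_of_pos (by linarith)]; exact hη2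
  have hq0 : (0 : ℝ) < q 0 := by exact_mod_cast D.q1 0
  have hq01 : (1 : ℝ) ≤ (q 0 : ℝ) ^ (k * n) := one_le_pow₀ (by exact_mod_cast D.q1 0)
  have hlip := lipC_nonneg (B := 2 ^ k) (by positivity) n
  have hDA0 : 0 ≤ DA := le_trans (by positivity) hDA
  have hDB0 : 0 ≤ DB := le_trans (by positivity) hDB
  set c : ℝ := 1 / (2 * (q 0 : ℝ) ^ (k * n)) with hc
  have hc0 : 0 < c := by positivity
  have hc2 : c ≤ 1 / 2 := by
    apply one_div_le_one_div_of_le (by norm_num); linarith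
  have hc1 : c ≤ 1 := by linarith
  set DD : ℝ := ∑ s ∈ Finset.range (n + 1), ((2 : ℝ) ^ k) ^ s with hDD
  have hDD0 : 0 < DD := by
    rw [hDD]; exact Finset.sum_pos (fun s _ => by positivity) ⟨0, by simp⟩
  refine lower_of_dichotomy hw0 hc0 hDD0 fun P hP0 hP => ?_
  have hH := one_le_ht hP0
  obtain ⟨j, hj⟩ := hC (ht P) hH
  have hH1 : (1 : ℝ) ≤ ht P := by exact_mod_cast hH
  have hH0 : (0 : ℝ) < ht P := by linarith
  have hHW1 : (ht P : ℝ) ^ (-(w : ℝ)) ≤ 1 := Real.rpow_le_one_of_one_le_of_nonpos hH1 (by linarith)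
  have hHW0 : 0 < (ht P : ℝ) ^ (-(w : ℝ)) := by positivity
  rcases hj with ⟨hA, hj⟩ | ⟨hB, hj⟩
  · -- type A
    have hq := D.q1 j
    have hqR : (0 : ℝ) < q j := by exact_mod_cast hq
    have hqR1 : (1 : ℝ) ≤ q j := by exact_mod_cast hq
    have hlen := len_pos (W := W) hq
    have hlenm := len_mul (W := W) hq
    have hlo := D.lo j
    have hhi := D.hi j
    have hr1 := D.rA1 j
    have hr2 := D.rA2 j
    have hr0 : (0 : ℝ) ≤ (p j : ℝ) / q j := by linarith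
    have hrξ : (p j : ℝ) / q j ≤ ξ := by linarith
    obtain ⟨r, hr⟩ : ∃ r : ℝ, r = ((p j : ℝ) / q j) ^ k := ⟨_, rfl⟩
    have hr' : r = ((p j ^ k : ℕ) : ℝ) / ((q j ^ k : ℕ) : ℝ) := by
      rw [hr, div_pow]; push_cast; rfl
    have hqk : 1 ≤ q j ^ k := Nat.one_le_pow _ _ hq
    have hqkR : (0 : ℝ) < ((q j ^ k : ℕ) : ℝ) := by exact_mod_cast hqk
    have hrle : r ≤ 2 ^ k := by rw [hr]; gcongr
    have hrnn : 0 ≤ r := by rw [hr]; positivity
    have hdlo : ξ - (p j : ℝ) / q j ≤ ξ ^ k - r := by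
      rw [hr]; exact sub_le_pow_sub_pow' hr0 hrξ hξ1 hk
    have hdhi : ξ ^ k - r ≤ k * 2 ^ k * (2 * len W (q j)) := by
      rw [hr]
      refine (pow_sub_pow_le hr0 hrξ hξ2 k).trans ?_
      gcongr
    by_cases hroot : aeval r P = 0
    · right
      obtain ⟨R, h1, h2, h3⟩ := factor_case hP0 hP (u := q j ^ k) (v := p j ^ k) (d := 1) hqk
        one_pos (irreducible_linear hqk (Nat.Coprime.pow k k (D.coA j))) (r := r)
        (by rw [pow_one, hr']; field_simp)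
        hroot (B := 2 ^ k) (by positivity) (by
          rw [hr', div_le_iff₀ hqkR] at hrle
          exact hrle)
      refine ⟨_, R, ((q j ^ k : ℕ) : ℝ), hqkR, h1, h2, ?_, h3⟩
      rw [aeval_binom, pow_one]
      have e1 : ((q j ^ k : ℕ) : ℝ) * ξ ^ k - ((p j ^ k : ℕ) : ℝ) =
          ((q j ^ k : ℕ) : ℝ) * (ξ ^ k - r) := by rw [hr']; field_simp
      have hnn : 0 ≤ ξ ^ k - r := by linarith
      rw [e1, abs_of_nonneg (mul_nonneg hqkR.le hnn)]
      have e2 : ((q j ^ k : ℕ) : ℝ) ^ (-(w : ℝ)) ≤ ((q j ^ k : ℕ) : ℝ) * len W (q j) := by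
        unfold len
        push_cast
        rw [← Real.rpow_natCast, ← Real.rpow_mul hqR.le, ← Real.rpow_add hqR]
        apply Real.rpow_le_rpow_of_exponent_le hqR1
        nlinarith
      calc c * ((q j ^ k : ℕ) : ℝ) ^ (-(w : ℝ)) ≤ 1 * (((q j ^ k : ℕ) : ℝ) * len W (q j)) := by
            gcongr
        _ ≤ ((q j ^ k : ℕ) : ℝ) * (ξ ^ k - r) := by rw [one_mul]; gcongr; linarith
    · left
      have h1 : 1 ≤ (q j : ℝ) ^ (k * n) * |aeval r P| := by
        have := rational_lower hP (p := ((p j ^ k : ℕ) : ℤ)) (q := q j ^ k) hqk (by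
          rw [Int.cast_natCast, ← hr']; exact hroot)
        rw [Int.cast_natCast, ← hr'] at this
        rw [pow_mul]
        exact_mod_cast this
      have h2 := transfer (B := 2 ^ k) h2k1 hP hηabs
        (r := r) (by rw [abs_of_nonneg hrnn]; exact hrle)
        (T := (q j : ℝ) ^ (k * n)) (ε := k * 2 ^ k * (2 * len W (q j))) (by positivity)
        (by rw [abs_of_nonneg (by linarith)]; exact hdhi) h1 (by
          calc 2 * (q j : ℝ) ^ (k * n) * (lipC (2 ^ k) n * ht P) * (k * 2 ^ k * (2 * len W (q j)))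
              = (lipC (2 ^ k) n * k * 2 ^ (k + 2)) * ht P * (q j : ℝ) ^ (k * n) * len W (q j) := by
                ring
            _ ≤ DA * ht P * (q j : ℝ) ^ (k * n) * len W (q j) := by gcongr
            _ ≤ (q j : ℝ) ^ (W + 1) * len W (q j) := by gcongr
            _ = 1 := by rw [mul_comm]; exact hlenm)
      refine le_trans ?_ h2
      rcases hj with rfl | hj
      · calc c * (ht P : ℝ) ^ (-(w : ℝ)) ≤ c * 1 := by gcongr
          _ ≤ _ := by rw [mul_one]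
      · have h3 : (ht P : ℝ) ^ (-(w : ℝ)) ≤ 1 / (q j : ℝ) ^ (k * n) := by
          refine rpow_neg_le_of_pow_le hH (e := 2 * k * (k * n)) ?_ (by positivity) ?_
          · have : 2 * k * (k * n) ≤ w := by nlinarith
            exact_mod_cast this
          · have : (q j : ℝ) ≤ (ht P : ℝ) ^ (2 * k) := by exact_mod_cast hj
            calc (q j : ℝ) ^ (k * n) ≤ ((ht P : ℝ) ^ (2 * k)) ^ (k * n) := by gcongr
              _ = _ := by rw [← pow_mul]
        calc c * (ht P : ℝ) ^ (-(w : ℝ)) ≤ (1 / 2) * (1 / (q j : ℝ) ^ (k * n)) := by gcongr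
          _ = _ := by rw [one_div_mul_one_div]
  · -- type B
    have hb : 1 ≤ b j := (D.q1 j).trans (D.qb j)
    have hbR : (0 : ℝ) < b j := by exact_mod_cast hb
    have hbR1 : (1 : ℝ) ≤ b j := by exact_mod_cast hb
    have hloB := D.loB j
    have hhiB := D.hiB j
    have hpos : 0 < 1 / (b j : ℝ) ^ (w + 1) := by positivity
    have hab0 : (0 : ℝ) ≤ (a j : ℝ) / b j := by positivity
    have hable : (a j : ℝ) / b j ≤ 2 ^ k := by linarith
    by_cases hroot : aeval ((a j : ℝ) / b j) P = 0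
    · right
      obtain ⟨R, h1, h2, h3⟩ := factor_case hP0 hP (u := b j) (v := a j) (d := 1) hb one_pos
        (irreducible_linear hb (D.coB j)) (r := (a j : ℝ) / b j) (by rw [pow_one]; field_simp)
        hroot (B := 2 ^ k) (by positivity) (by rwa [div_le_iff₀ hbR] at hable)
      refine ⟨_, R, (b j : ℝ), hbR, h1, h2, ?_, h3⟩
      rw [aeval_binom, pow_one]
      have e1 : (b j : ℝ) * ξ ^ k - a j = b j * (ξ ^ k - a j / b j) := by field_simp
      rw [e1, abs_of_nonneg (by apply mul_nonneg hbR.le; linarith)]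
      calc c * (b j : ℝ) ^ (-(w : ℝ)) ≤ 1 * (b j : ℝ) ^ (-(w : ℝ)) := by gcongr
        _ = b j * (1 / (b j : ℝ) ^ (w + 1)) := by
            rw [one_mul, Real.rpow_neg hbR.le, Real.rpow_natCast, pow_succ]; field_simp
        _ ≤ b j * (ξ ^ k - a j / b j) := by gcongr
    · left
      have h1 : 1 ≤ (b j : ℝ) ^ n * |aeval ((a j : ℝ) / b j) P| := by
        have := rational_lower hP (p := (a j : ℤ)) hb (by simpa using hroot)
        simpa using this
      have hHk : (ht P : ℝ) ≤ (ht P : ℝ) ^ k := le_self_pow₀ hH1 (by omega)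
      have hbn : (b j : ℝ) ^ n ≤ (b j : ℝ) ^ (k * n * k) := by
        apply pow_le_pow_right₀ hbR1
        nlinarith [Nat.zero_le n, Nat.mul_le_mul hk hk]
      have h2 := transfer (B := 2 ^ k) h2k1 hP hηabs
        (r := (a j : ℝ) / b j) (by rw [abs_of_nonneg hab0]; exact hable)
        (T := (b j : ℝ) ^ n) (ε := 2 / (b j : ℝ) ^ (w + 1))
        (by positivity) (by rw [abs_of_nonneg (by linarith)]; exact hhiB) h1 (by
          calc 2 * (b j : ℝ) ^ n * (lipC (2 ^ k) n * ht P) * (2 / (b j : ℝ) ^ (w + 1))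
              = (4 * lipC (2 ^ k) n) * ht P * (b j : ℝ) ^ n * (1 / (b j : ℝ) ^ (w + 1)) := by ring
            _ ≤ DB * (ht P : ℝ) ^ k * (b j : ℝ) ^ (k * n * k) * (1 / (b j : ℝ) ^ (w + 1)) := by
                gcongr
            _ ≤ (b j : ℝ) ^ (w + 1) * (1 / (b j : ℝ) ^ (w + 1)) := by gcongr
            _ = 1 := by field_simp)
      refine le_trans ?_ h2
      have h3 : (ht P : ℝ) ^ (-(w : ℝ)) ≤ 1 / (b j : ℝ) ^ n := by
        refine rpow_neg_le_of_pow_le hH (e := 2 * n) ?_ (by positivity) ?_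
        · have : 2 * n ≤ w := by nlinarith [Nat.zero_le n, Nat.mul_le_mul hk hk]
          exact_mod_cast this
        · have : (b j : ℝ) ≤ (ht P : ℝ) ^ 2 := by exact_mod_cast hj
          calc (b j : ℝ) ^ n ≤ ((ht P : ℝ) ^ 2) ^ n := by gcongr
            _ = _ := by rw [← pow_mul]
      calc c * (ht P : ℝ) ^ (-(w : ℝ)) ≤ (1 / 2) * (1 / (b j : ℝ) ^ n) := by gcongr
        _ = _ := by rw [one_div_mul_one_div]



lemma le_of_covers {W : ℝ} {w k : ℕ} {p q a b : ℕ → ℕ} {ξ : ℝ} (D : Data ξ W w k p q a b)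
    (hbq : ∀ j, b j < q (j + 1)) (j : ℕ) : j ≤ b j := by
  have hmono : StrictMono b := strictMono_nat_of_lt_succ fun j => (hbq j).trans_le (D.qb (j + 1))
  exact hmono.id_le j

/-- **Theorem.** For all integers `n ≥ 1`, `k ≥ 2` and every real `δ ≥ 0` there is a real
transcendental number `ξ` such that all four exponents are finite,
`w_{kn}(ξ) = w_n(ξ^k) + δ` and `w_{kn}^*(ξ) = w_n^*(ξ^k) + δ`. -/
theorem result : ∀ n k : ℕ, 1 ≤ n → 2 ≤ k → ∀ δ : ℝ, 0 ≤ δ →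
    ∃ ξ : ℝ, Transcendental ℚ ξ ∧
      wExp (k * n) ξ ≠ ⊤ ∧ wExp n (ξ ^ k) ≠ ⊤ ∧ wStar (k * n) ξ ≠ ⊤ ∧ wStar n (ξ ^ k) ≠ ⊤ ∧
      wExp (k * n) ξ = wExp n (ξ ^ k) + ENNReal.ofReal δ ∧
      wStar (k * n) ξ = wStar n (ξ ^ k) + ENNReal.ofReal δ := by
  intro n k hn hk δ hδ
  have hk1 : 1 ≤ k := by omega
  obtain ⟨w, hw⟩ : ∃ w : ℕ, w = 2 * (k * n) * k + k + ⌈δ⌉₊ := ⟨_, rfl⟩
  obtain ⟨W, hW⟩ : ∃ W : ℝ, W = w + δ := ⟨_, rfl⟩
  have hwW : (w : ℝ) ≤ W := by rw [hW]; linarith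
  have hW0 : 0 ≤ W := (Nat.cast_nonneg w).trans hwW
  have hδw : δ ≤ w := by
    have h1 : (⌈δ⌉₊ : ℝ) ≤ w := by exact_mod_cast (by omega : ⌈δ⌉₊ ≤ w)
    exact (Nat.le_ceil δ).trans h1
  have hWk : W + 1 ≤ k * ((w : ℝ) + 1) := by
    have h2 : (2 : ℝ) ≤ k := by exact_mod_cast hk
    have h3 : (0 : ℝ) ≤ w := Nat.cast_nonneg w
    rw [hW]
    nlinarith
  have hmw : 2 * (k * n) * k + k ≤ w := by omega
  obtain ⟨DA, hDAdef⟩ : ∃ DA : ℝ,
    DA = 4 * lipC 2 (k * n) + lipC (2 ^ k) n * k * 2 ^ (k + 2) + 1 := ⟨_, rfl⟩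
  obtain ⟨DB, hDBdef⟩ : ∃ DB : ℝ,
    DB = 4 * lipC 2 (k * n) * (((k * n : ℕ) + 1) * 2 ^ (k * n)) ^ (k - 1) +
      4 * lipC (2 ^ k) n + 1 := ⟨_, rfl⟩
  have l1 := lipC_nonneg (B := 2) (by norm_num) (k * n)
  have l2 := lipC_nonneg (B := 2 ^ k) (by positivity) n
  have l3 : 0 ≤ lipC (2 ^ k) n * k * 2 ^ (k + 2) := by positivity
  have l4 : 0 ≤ 4 * lipC 2 (k * n) * (((k * n : ℕ) + 1) * 2 ^ (k * n)) ^ (k - 1) := by positivity
  have hDA1 : 1 ≤ DA := by linarith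
  have hDB1 : 1 ≤ DB := by linarith
  have hCB0 : (0 : ℝ) < 8 * k * 2 ^ k := by
    have : (0 : ℝ) < k := by exact_mod_cast hk1
    positivity
  obtain ⟨K, hK⟩ := exists_nat_ge (max (216 * DA ^ 2) ((8 * k * 2 ^ k) * DB ^ 2))
  obtain ⟨ξ, htr, hξ1, hξ2, p, q, a, b, hall⟩ := construction hW0 w K hk1
  have D : Data ξ W w k p q a b :=
    { hξ1 := hξ1
      hξ2 := hξ2
      q1 := fun j => (hall j).1.2.1
      coA := fun j => (hall j).1.2.2.1
      rA1 := fun j => (hall j).1.2.2.2.1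
      rA2 := fun j => (hall j).1.2.2.2.2.1
      lo := fun j => (hall j).1.2.2.2.2.2.1
      hi := fun j => (hall j).1.2.2.2.2.2.2
      coB := fun j => (hall j).2.1.1
      b2 := fun j => (hall j).2.1.2.1
      a2 := fun j => (hall j).2.1.2.2.1
      a4 := fun j => (hall j).2.1.2.2.2.1
      qb := fun j => (hall j).2.1.2.2.2.2.1
      loB := fun j => (hall j).2.1.2.2.2.2.2.2.1
      hiB := fun j => (hall j).2.1.2.2.2.2.2.2.2 }
  have hbq : ∀ j, b j < q (j + 1) := fun j => (hall j).2.2.1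
  have hjb : ∀ j, j ≤ b j := le_of_covers D hbq
  have hKq : ∀ j, (K : ℝ) ≤ q j := fun j => by exact_mod_cast (hall j).1.1
  have hKb : ∀ j, (K : ℝ) ≤ b j := fun j => (hKq j).trans (by exact_mod_cast D.qb j)
  have hcov : Covers W DA DB w k (k * n) q b := by
    intro H hH
    refine cover (CA := 216) (CB := 8 * k * 2 ^ k) hk1 hDA1 hDB1 (by norm_num) hCB0 ?_ (by omega)
      (fun j => ((le_max_left _ _).trans hK).trans (hKq j))
      (fun j => ((le_max_right _ _).trans hK).trans (hKb j)) D.q1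
      (fun j => (D.q1 j).trans (D.qb j)) hjb (fun j => (hall j).2.1.2.2.2.2.2.1)
      (fun j => (hall j).2.2.2) hH
    refine le_trans ?_ hwW
    have h1 : 2 * (k * n) ≤ w := by
      have : 2 * (k * n) * 1 ≤ 2 * (k * n) * k := Nat.mul_le_mul_left _ hk1
      omega
    exact_mod_cast h1
  -- the four bounds
  obtain ⟨c₁, hc₁, hlow₁⟩ := xi_lower hk1 D hcov (by linarith) (by linarith) hwW hmw
  obtain ⟨c₂, hc₂, hlow₂⟩ := eta_lower hk1 D hcov (by linarith) (by linarith) hwW hmw hWk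
  let VW : NNReal := ⟨W, hW0⟩
  let Vw : NNReal := (w : NNReal)
  have hVW : (VW : ℝ) = W := rfl
  have hVw : (Vw : ℝ) = (w : ℝ) := NNReal.coe_natCast w
  have u1 : wExp (k * n) ξ ≤ VW := wExp_le hc₁ hlow₁
  have u2 : wStar (k * n) ξ ≤ VW := wStar_le hc₁ hlow₁
  have u3 : wExp n (ξ ^ k) ≤ Vw := wExp_le hc₂ (by rw [hVw]; exact hlow₂)
  have u4 : wStar n (ξ ^ k) ≤ Vw := wStar_le hc₂ (by rw [hVw]; exact hlow₂)
  have hkn : 1 ≤ k * n := Nat.mul_pos hk1 hn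
  obtain ⟨v1, v2⟩ := exponents_ge (V := VW) (x := ξ) hkn (C₀ := 2) (by norm_num) (by
    intro M
    have h1 := hjb M
    have h2 := hbq M
    have hlen := len_pos (W := W) (D.q1 (M + 1))
    have hlo := D.lo (M + 1)
    refine ⟨p (M + 1), q (M + 1), by omega, D.coA _, ?_, ?_⟩
    · rw [abs_of_pos (by linarith)]; linarith
    · rw [abs_of_pos (by linarith)]; exact D.hi (M + 1))
  obtain ⟨v3, v4⟩ := exponents_ge (V := Vw) (x := ξ ^ k) hn (C₀ := 2) (by norm_num) (by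
    intro M
    have h1 := hjb M
    have h2 := hbq M
    have h3 := D.qb (M + 1)
    have hb0 : (0 : ℝ) < b (M + 1) := by
      have : 0 < b (M + 1) := by omega
      exact_mod_cast this
    have hlo := D.loB (M + 1)
    have hpos : 0 < 1 / (b (M + 1) : ℝ) ^ (w + 1) := by positivity
    refine ⟨a (M + 1), b (M + 1), by omega, D.coB _, ?_, ?_⟩
    · rw [abs_of_pos (by linarith)]; linarith
    · rw [abs_of_pos (by linarith)]
      refine (D.hiB (M + 1)).trans (le_of_eq ?_)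
      rw [hVw, Real.rpow_neg hb0.le, div_eq_mul_inv]
      congr 2
      rw [← Nat.cast_add_one, Real.rpow_natCast])
  have e1 : wExp (k * n) ξ = VW := le_antisymm u1 v1
  have e2 : wStar (k * n) ξ = VW := le_antisymm u2 v2
  have e3 : wExp n (ξ ^ k) = Vw := le_antisymm u3 v3
  have e4 : wStar n (ξ ^ k) = Vw := le_antisymm u4 v4
  have hsum : (VW : ENNReal) = (Vw : ENNReal) + ENNReal.ofReal δ := by
    have : VW = Vw + Real.toNNReal δ := by
      apply NNReal.eq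
      rw [NNReal.coe_add, Real.coe_toNNReal δ hδ, hVw, hVW, hW]
    rw [this, ENNReal.coe_add]; rfl
  refine ⟨ξ, ?_, ?_, ?_, ?_, ?_, ?_, ?_⟩
  · intro halg
    exact htr ((IsFractionRing.isAlgebraic_iff ℤ ℚ ℝ).mpr halg)
  · rw [e1]; exact ENNReal.coe_ne_top
  · rw [e3]; exact ENNReal.coe_ne_top
  · rw [e2]; exact ENNReal.coe_ne_top
  · rw [e4]; exact ENNReal.coe_ne_top
  · rw [e1, e3]; exact hsum
  · rw [e2, e4]; exact hsum

end Pool.Agent.Results.MP_9b3446_nt.PowerExponents
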